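import Mathlib

set_option autoImplicit false

/-
The Seeker-Hider edge-query game on the vertex set `ℕ`.
Edges are non-diagonal elements of `Sym2 ℕ`, graphs are elements of `SimpleGraph ℕ`.
-/

namespace Pool.Agent.Lib.MP_5af839_lc

/-- The history of the first `n` turns of the play in which Seeker chooses the edges
`e 0, e 1, ...` and Hider gives them the colours `c 0, c 1, ...` (`true` is green, `false` is
red). -/
def history (e : ℕ → Sym2 ℕ) (c : ℕ → Bool) (n : ℕ) : List (Sym2 ℕ × Bool) :=
  (List.range n).map fun i => (e i, c i)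

/-- Seeker obeys the rules: he always chooses an edge (two distinct end points) that is still
white, i.e. not chosen before. -/
def LegalRun (e : ℕ → Sym2 ℕ) : Prop :=
  (∀ n, ¬ (e n).IsDiag) ∧ Function.Injective e

/-- The set of edges that are green at the end of the run. -/
def greenEdges (e : ℕ → Sym2 ℕ) (c : ℕ → Bool) : Set (Sym2 ℕ) :=
  {x | ∃ n, e n = x ∧ c n = true}

/-- The set of edges that are white at the end of the run. -/
def whiteEdges (e : ℕ → Sym2 ℕ) : Set (Sym2 ℕ) :=
  {x | ¬ x.IsDiag ∧ ∀ n, e n ≠ x}

/-- The set of graphs that contain all green edges and are contained in the union of the green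
and the white edges at the end of the run. -/
def completions (e : ℕ → Sym2 ℕ) (c : ℕ → Bool) : Set (SimpleGraph ℕ) :=
  {H | greenEdges e c ⊆ H.edgeSet ∧ H.edgeSet ⊆ greenEdges e c ∪ whiteEdges e}

/-- Seeker wins the run: some edge is white at the end, and the completions are all in `S` or all
outside `S`. -/
def SeekerWins (S : Set (SimpleGraph ℕ)) (e : ℕ → Sym2 ℕ) (c : ℕ → Bool) : Prop :=
  (whiteEdges e).Nonempty ∧ (completions e c ⊆ S ∨ Disjoint (completions e c) S)

/-- `S` is a graph property: it is closed under isomorphism. -/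
def IsGraphProperty (S : Set (SimpleGraph ℕ)) : Prop :=
  ∀ G ∈ S, ∀ G' : SimpleGraph ℕ, Nonempty (G ≃g G') → G' ∈ S

/-- `σ` is a winning strategy for Seeker: whatever colours Hider chooses, the run in which Seeker
follows `σ` obeys the rules and is won by Seeker. -/
def SeekerWinning (S : Set (SimpleGraph ℕ)) (σ : List (Sym2 ℕ × Bool) → Sym2 ℕ) : Prop :=
  ∀ (e : ℕ → Sym2 ℕ) (c : ℕ → Bool), (∀ n, e n = σ (history e c n)) →
    LegalRun e ∧ SeekerWins S e c

/-- `τ` is a winning strategy for Hider: every legal run in which Hider follows `τ` is not won by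
Seeker. -/
def HiderWinning (S : Set (SimpleGraph ℕ)) (τ : List (Sym2 ℕ × Bool) → Sym2 ℕ → Bool) : Prop :=
  ∀ (e : ℕ → Sym2 ℕ) (c : ℕ → Bool), LegalRun e → (∀ n, c n = τ (history e c n) (e n)) →
    ¬ SeekerWins S e c

end Pool.Agent.Lib.MP_5af839_lc
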