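import Mathlib

set_option autoImplicit false

namespace Pool.Agent.Lib.MP_5af839_lc

open SimpleGraph

/-- vertex set of the component of `v` -/
def comp (G : SimpleGraph ℕ) (v : ℕ) : Set ℕ := {w | G.Reachable v w}

/-- vertices of degree one in the component of `v` -/
def leaves (G : SimpleGraph ℕ) (v : ℕ) : Set ℕ := {w | G.Reachable v w ∧ ∃! x, G.Adj w x}

/-- the component of `v` contains two vertex-disjoint paths with three vertices -/
def Good (G : SimpleGraph ℕ) (v : ℕ) : Prop :=
  ∃ a b c a' b' c' : ℕ, G.Reachable v b ∧ G.Reachable v b' ∧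
    G.Adj a b ∧ G.Adj b c ∧ G.Adj a' b' ∧ G.Adj b' c' ∧
    a ≠ c ∧ a' ≠ c' ∧ (∀ x ∈ ({a, b, c} : Set ℕ), x ∉ ({a', b', c'} : Set ℕ))

/-- all components are finite of odd size -/
def Odds (G : SimpleGraph ℕ) : Prop := ∀ v, (comp G v).Finite ∧ Odd (comp G v).ncard

/-- sizes of level `n` -/
def InLevel (n k : ℕ) : Prop := k = 4 * n + 7 ∨ k = 4 * n + 9

/-- the large components of `G` follow the pattern `(r, y)` -/
def Match (G : SimpleGraph ℕ) (r y : ℕ → Bool) : Prop :=
  ∃ N, ∀ n ≥ N, (∃ v, InLevel n (comp G v).ncard) ∧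
    ∀ v, InLevel n (comp G v).ncard →
      (comp G v).ncard = 4 * n + 7 + 2 * (r n).toNat ∧ Good G v ∧
      (Odd (leaves G v).ncard ↔ y n = true)

theorem InLevel.unique {n m k : ℕ} (h : InLevel n k) (h' : InLevel m k) : n = m := by
  unfold InLevel at h h'; omega

theorem InLevel.level {n k : ℕ} (h : InLevel n k) : (k - 7) / 4 = n := by
  unfold InLevel at h; omega

theorem mem_comp_self (G : SimpleGraph ℕ) (v : ℕ) : v ∈ comp G v := Reachable.refl v

theorem comp_eq_of_reachable {G : SimpleGraph ℕ} {v w : ℕ} (h : G.Reachable v w) :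
    comp G v = comp G w := by
  ext x
  exact ⟨fun hx => h.symm.trans hx, fun hx => h.trans hx⟩

/-- Reachability after adding one edge. -/
theorem reachable_sup_edge_iff {G : SimpleGraph ℕ} {a b : ℕ} (u v : ℕ) (hab : a ≠ b) :
    (G ⊔ edge a b).Reachable u v ↔
      G.Reachable u v ∨ (G.Reachable u a ∧ G.Reachable b v) ∨
        (G.Reachable u b ∧ G.Reachable a v) := by
  constructor
  · intro h
    rw [reachable_eq_reflTransGen] at h
    induction h with
    | refl => exact Or.inl (Reachable.refl _)
    | @tail w v _ hwv ih =>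
      rw [sup_adj, edge_adj] at hwv
      rcases hwv with hwv | ⟨⟨rfl, rfl⟩ | ⟨rfl, rfl⟩, -⟩
      · rcases ih with ih | ⟨h1, h2⟩ | ⟨h1, h2⟩
        · exact Or.inl (ih.trans hwv.reachable)
        · exact Or.inr (Or.inl ⟨h1, h2.trans hwv.reachable⟩)
        · exact Or.inr (Or.inr ⟨h1, h2.trans hwv.reachable⟩)
      · rcases ih with ih | ⟨h1, h2⟩ | ⟨h1, h2⟩
        · exact Or.inr (Or.inl ⟨ih, Reachable.refl _⟩)
        · exact Or.inr (Or.inl ⟨h1, Reachable.refl _⟩)
        · exact Or.inl h1
      · rcases ih with ih | ⟨h1, h2⟩ | ⟨h1, h2⟩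
        · exact Or.inr (Or.inr ⟨ih, Reachable.refl _⟩)
        · exact Or.inl h1
        · exact Or.inr (Or.inr ⟨h1, Reachable.refl _⟩)
  · have hle : G ≤ G ⊔ edge a b := le_sup_left
    have hadj : (G ⊔ edge a b).Adj a b := by
      rw [sup_adj, edge_adj]
      exact Or.inr ⟨Or.inl ⟨rfl, rfl⟩, hab⟩
    rintro (h | ⟨h1, h2⟩ | ⟨h1, h2⟩)
    · exact h.mono hle
    · exact ((h1.mono hle).trans hadj.reachable).trans (h2.mono hle)
    · exact ((h1.mono hle).trans hadj.symm.reachable).trans (h2.mono hle)

/-- A connected set with at least three points contains a vertex with two neighbours. -/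
theorem exists_two_neighbours {G : SimpleGraph ℕ} {v : ℕ}
    (h : ∀ x y : ℕ, comp G v ≠ {x, y}) :
    ∃ a b c, G.Reachable v b ∧ G.Adj a b ∧ G.Adj b c ∧ a ≠ c := by
  by_contra hcon
  push Not at hcon
  -- every vertex in the component has at most one neighbour
  have huniq : ∀ b, G.Reachable v b → ∀ a c, G.Adj b a → G.Adj b c → a = c :=
    fun b hb a c ha hc => hcon a b c hb ha.symm hc
  by_cases hv : ∃ w, G.Adj v w
  · obtain ⟨w, hw⟩ := hv
    apply h v w
    ext x
    constructor
    · intro hx
      have hx' : G.Reachable v x := hx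
      rw [reachable_eq_reflTransGen] at hx'
      induction hx' with
      | refl => left; rfl
      | @tail y x hy hyx ih =>
        have hy' : G.Reachable v y := by rw [reachable_eq_reflTransGen]; exact hy
        rcases ih hy' with rfl | rfl
        · right; exact huniq _ (Reachable.refl _) _ _ hyx hw
        · left; exact huniq _ hy' _ _ hyx hw.symm
    · rintro (rfl | rfl)
      · exact Reachable.refl _
      · exact hw.reachable
  · push Not at hv
    apply h v v
    ext x
    constructor
    · intro hx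
      have hx' : G.Reachable v x := hx
      rw [reachable_eq_reflTransGen] at hx'
      rcases Relation.ReflTransGen.cases_head hx' with rfl | ⟨w, hw, -⟩
      · left; rfl
      · exact absurd hw (hv w)
    · rintro (rfl | rfl) <;> exact Reachable.refl _

theorem exists_two_neighbours_of_card {G : SimpleGraph ℕ} {v : ℕ}
    (h : 2 < (comp G v).ncard) :
    ∃ a b c, G.Reachable v b ∧ G.Adj a b ∧ G.Adj b c ∧ a ≠ c := by
  apply exists_two_neighbours
  intro x y hxy
  rw [hxy] at h
  have := Set.ncard_insert_le x {y}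
  rw [Set.ncard_singleton] at this
  omega

end Pool.Agent.Lib.MP_5af839_lc
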