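import Mathlib
import Pool.Agent.Lib.MP_5af839_lc.GraphLemmas

set_option autoImplicit false

namespace Pool.Agent.Lib.MP_5af839_lc

open SimpleGraph

/-! ### Isomorphism invariance -/

theorem comp_iso {G G' : SimpleGraph ℕ} (φ : G ≃g G') (v : ℕ) :
    comp G' (φ v) = φ '' comp G v := by
  ext w
  constructor
  · intro h
    refine ⟨φ.symm w, ?_, by simp⟩
    have h' : G'.Reachable (φ v) (φ (φ.symm w)) := by simpa using (show G'.Reachable (φ v) w from h)
    exact (Iso.reachable_iff (φ := φ)).1 h'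
  · rintro ⟨x, hx, rfl⟩
    exact (Iso.reachable_iff (φ := φ)).2 hx

theorem leaf_iso {G G' : SimpleGraph ℕ} (φ : G ≃g G') (w : ℕ) :
    (∃! x, G'.Adj (φ w) x) ↔ ∃! x, G.Adj w x := by
  constructor
  · rintro ⟨x, hx, hux⟩
    refine ⟨φ.symm x, ?_, ?_⟩
    · have : G'.Adj (φ w) (φ (φ.symm x)) := by simpa using hx
      exact φ.map_adj_iff.1 this
    · intro y hy
      have := hux (φ y) (φ.map_adj_iff.2 hy)
      rw [← this]; simp
  · rintro ⟨x, hx, hux⟩
    refine ⟨φ x, φ.map_adj_iff.2 hx, ?_⟩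
    intro y hy
    have h1 : G'.Adj (φ w) (φ (φ.symm y)) := by simpa using hy
    have := hux _ (φ.map_adj_iff.1 h1)
    rw [← this]; simp

theorem leaves_iso {G G' : SimpleGraph ℕ} (φ : G ≃g G') (v : ℕ) :
    leaves G' (φ v) = φ '' leaves G v := by
  ext w
  constructor
  · rintro ⟨h, hl⟩
    refine ⟨φ.symm w, ⟨?_, ?_⟩, by simp⟩
    · have h' : G'.Reachable (φ v) (φ (φ.symm w)) := by simpa using h
      exact (Iso.reachable_iff (φ := φ)).1 h'
    · rw [← leaf_iso φ]; simpa using hl
  · rintro ⟨x, ⟨hx, hl⟩, rfl⟩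
    exact ⟨(Iso.reachable_iff (φ := φ)).2 hx, (leaf_iso φ x).2 hl⟩

theorem good_iso {G G' : SimpleGraph ℕ} (φ : G ≃g G') {v : ℕ} (h : Good G v) :
    Good G' (φ v) := by
  obtain ⟨a, b, c, a', b', c', h1, h2, h3, h4, h5, h6, h7, h8, h9⟩ := h
  refine ⟨φ a, φ b, φ c, φ a', φ b', φ c', (Iso.reachable_iff (φ := φ)).2 h1,
    (Iso.reachable_iff (φ := φ)).2 h2, φ.map_adj_iff.2 h3, φ.map_adj_iff.2 h4, φ.map_adj_iff.2 h5,
    φ.map_adj_iff.2 h6, fun h => h7 (φ.injective h), fun h => h8 (φ.injective h), ?_⟩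
  intro x hx hx'
  obtain ⟨u, rfl⟩ := φ.surjective x
  simp only [Set.mem_insert_iff, Set.mem_singleton_iff, EmbeddingLike.apply_eq_iff_eq] at hx hx'
  exact h9 u hx hx'

theorem odds_iso {G G' : SimpleGraph ℕ} (φ : G ≃g G') (h : Odds G) : Odds G' := by
  intro v
  obtain ⟨w, rfl⟩ := φ.surjective v
  rw [comp_iso φ]
  refine ⟨(h w).1.image _, ?_⟩
  rw [Set.ncard_image_of_injective _ φ.injective]
  exact (h w).2

theorem match_iso {G G' : SimpleGraph ℕ} (φ : G ≃g G') {r y : ℕ → Bool} (h : Match G r y) :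
    Match G' r y := by
  obtain ⟨N, hN⟩ := h
  refine ⟨N, fun n hn => ?_⟩
  obtain ⟨⟨v, hv⟩, h2⟩ := hN n hn
  have hcard : ∀ w, (comp G' (φ w)).ncard = (comp G w).ncard := fun w => by
    rw [comp_iso φ, Set.ncard_image_of_injective _ φ.injective]
  have hleaf : ∀ w, (leaves G' (φ w)).ncard = (leaves G w).ncard := fun w => by
    rw [leaves_iso φ, Set.ncard_image_of_injective _ φ.injective]
  refine ⟨⟨φ v, by rw [hcard]; exact hv⟩, ?_⟩
  intro w hw
  obtain ⟨u, rfl⟩ := φ.surjective w
  rw [hcard] at hw ⊢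
  rw [hleaf]
  obtain ⟨a1, a2, a3⟩ := h2 u hw
  exact ⟨a1, good_iso φ a2, a3⟩

/-! ### Changing a single finite component -/

section OneEdge

variable {G : SimpleGraph ℕ} {a b : ℕ}

theorem comp_sup_edge_of_not_mem (hab : a ≠ b) {v : ℕ} (hv : v ∉ comp (G ⊔ edge a b) a) :
    comp (G ⊔ edge a b) v = comp G v := by
  have hle : G ≤ G ⊔ edge a b := le_sup_left
  have hva : ¬ G.Reachable v a := fun h => hv (h.symm.mono hle)
  have hvb : ¬ G.Reachable v b := fun h => hv ((reachable_sup_edge_iff a v hab).2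
    (Or.inr (Or.inl ⟨Reachable.refl _, h.symm⟩)))
  ext w
  show (G ⊔ edge a b).Reachable v w ↔ G.Reachable v w
  rw [reachable_sup_edge_iff v w hab]
  constructor
  · rintro (h | ⟨h, -⟩ | ⟨h, -⟩)
    · exact h
    · exact absurd h hva
    · exact absurd h hvb
  · exact Or.inl

theorem adj_sup_edge_of_not_mem (hab : a ≠ b) {v w x : ℕ} (hv : v ∉ comp (G ⊔ edge a b) a)
    (hw : (G ⊔ edge a b).Reachable v w) : (G ⊔ edge a b).Adj w x ↔ G.Adj w x := by
  have hwa : w ≠ a := by
    rintro rfl
    exact hv hw.symm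
  have hwb : w ≠ b := by
    rintro rfl
    apply hv
    refine Reachable.trans ?_ hw.symm
    exact (reachable_sup_edge_iff _ _ hab).2 (Or.inr (Or.inl ⟨Reachable.refl _, Reachable.refl _⟩))
  rw [sup_adj, edge_adj]
  constructor
  · rintro (h | ⟨⟨rfl, rfl⟩ | ⟨rfl, rfl⟩, -⟩)
    · exact h
    · exact absurd rfl hwa
    · exact absurd rfl hwb
  · exact Or.inl

theorem leaves_sup_edge_of_not_mem (hab : a ≠ b) {v : ℕ} (hv : v ∉ comp (G ⊔ edge a b) a) :
    leaves (G ⊔ edge a b) v = leaves G v := by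
  have hc := comp_sup_edge_of_not_mem hab hv
  ext w
  constructor
  · rintro ⟨h1, h2⟩
    have h1' : w ∈ comp G v := by rw [← hc]; exact h1
    refine ⟨h1', ?_⟩
    simpa only [adj_sup_edge_of_not_mem hab hv h1] using h2
  · rintro ⟨h1, h2⟩
    have h1' : (G ⊔ edge a b).Reachable v w := h1.mono le_sup_left
    refine ⟨h1', ?_⟩
    simpa only [adj_sup_edge_of_not_mem hab hv h1'] using h2

theorem good_sup_edge_of_not_mem (hab : a ≠ b) {v : ℕ} (hv : v ∉ comp (G ⊔ edge a b) a) :
    Good (G ⊔ edge a b) v ↔ Good G v := by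
  constructor
  · rintro ⟨x, y, z, x', y', z', h1, h2, h3, h4, h5, h6, h7, h8, h9⟩
    have hc := comp_sup_edge_of_not_mem hab hv
    have k1 : y ∈ comp G v := by rw [← hc]; exact h1
    have k2 : y' ∈ comp G v := by rw [← hc]; exact h2
    exact ⟨x, y, z, x', y', z', k1, k2, ((adj_sup_edge_of_not_mem hab hv h1).1 h3.symm).symm,
      (adj_sup_edge_of_not_mem hab hv h1).1 h4,
      ((adj_sup_edge_of_not_mem hab hv h2).1 h5.symm).symm,
      (adj_sup_edge_of_not_mem hab hv h2).1 h6, h7, h8, h9⟩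
  · rintro ⟨x, y, z, x', y', z', h1, h2, h3, h4, h5, h6, h7, h8, h9⟩
    have hle : G ≤ G ⊔ edge a b := le_sup_left
    exact ⟨x, y, z, x', y', z', h1.mono hle, h2.mono hle, hle h3, hle h4, hle h5, hle h6,
      h7, h8, h9⟩

/-- If the component of the new edge is finite, then the patterns of `G` and of `G` plus the edge
are the same. -/
theorem match_sup_edge (hab : a ≠ b) (hfin : (comp (G ⊔ edge a b) a).Finite) (r y : ℕ → Bool) :
    Match (G ⊔ edge a b) r y ↔ Match G r y := by
  set M := (comp (G ⊔ edge a b) a).ncard with hM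
  have hsub : ∀ v, v ∈ comp (G ⊔ edge a b) a → comp G v ⊆ comp (G ⊔ edge a b) a := by
    intro v hv w hw
    exact Reachable.trans hv (Reachable.mono le_sup_left hw)
  have hbig : ∀ v, v ∈ comp (G ⊔ edge a b) a → (comp G v).ncard ≤ M :=
    fun v hv => Set.ncard_le_ncard (hsub v hv) hfin
  have hbig' : ∀ v, v ∈ comp (G ⊔ edge a b) a → (comp (G ⊔ edge a b) v).ncard ≤ M :=
    fun v hv => by rw [← comp_eq_of_reachable hv]
  constructor
  · rintro ⟨N, hN⟩
    refine ⟨max N M, fun n hn => ?_⟩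
    obtain ⟨⟨v, hv⟩, h2⟩ := hN n (le_trans (le_max_left _ _) hn)
    have hnM : M ≤ n := le_trans (le_max_right _ _) hn
    constructor
    · refine ⟨v, ?_⟩
      have hv' : v ∉ comp (G ⊔ edge a b) a := by
        intro h
        have := hbig' v h
        unfold InLevel at hv; omega
      rwa [← comp_sup_edge_of_not_mem hab hv']
    · intro w hw
      have hw' : w ∉ comp (G ⊔ edge a b) a := by
        intro h
        have := hbig w h
        unfold InLevel at hw; omega
      have e1 := comp_sup_edge_of_not_mem hab hw'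
      have e2 := leaves_sup_edge_of_not_mem hab hw'
      have e3 := good_sup_edge_of_not_mem hab hw'
      have := h2 w (by rw [e1]; exact hw)
      rw [e1, e2, e3] at this
      exact this
  · rintro ⟨N, hN⟩
    refine ⟨max N M, fun n hn => ?_⟩
    obtain ⟨⟨v, hv⟩, h2⟩ := hN n (le_trans (le_max_left _ _) hn)
    have hnM : M ≤ n := le_trans (le_max_right _ _) hn
    constructor
    · refine ⟨v, ?_⟩
      have hv' : v ∉ comp (G ⊔ edge a b) a := by
        intro h
        have := hbig v h
        unfold InLevel at hv; omega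
      rwa [comp_sup_edge_of_not_mem hab hv']
    · intro w hw
      have hw' : w ∉ comp (G ⊔ edge a b) a := by
        intro h
        have := hbig' w h
        unfold InLevel at hw; omega
      have e1 := comp_sup_edge_of_not_mem hab hw'
      have e2 := leaves_sup_edge_of_not_mem hab hw'
      have e3 := good_sup_edge_of_not_mem hab hw'
      rw [e1] at hw
      have := h2 w hw
      rw [e1, e2, e3]
      exact this

/-- Adding an edge inside a component does not change the components. -/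
theorem comp_sup_edge_of_reachable (hab : a ≠ b) (h : G.Reachable a b) (v : ℕ) :
    comp (G ⊔ edge a b) v = comp G v := by
  ext w
  show (G ⊔ edge a b).Reachable v w ↔ G.Reachable v w
  rw [reachable_sup_edge_iff v w hab]
  constructor
  · rintro (h1 | ⟨h1, h2⟩ | ⟨h1, h2⟩)
    · exact h1
    · exact (h1.trans h).trans h2
    · exact (h1.trans h.symm).trans h2
  · exact Or.inl

theorem odds_sup_edge_of_reachable (hab : a ≠ b) (h : G.Reachable a b) :
    Odds (G ⊔ edge a b) ↔ Odds G := by
  unfold Odds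
  simp only [comp_sup_edge_of_reachable hab h]

/-- Adding an edge between two different components destroys `Odds`. -/
theorem not_odds_sup_edge (hab : ¬ G.Reachable a b) (hG : Odds G) : ¬ Odds (G ⊔ edge a b) := by
  have hne : a ≠ b := by rintro rfl; exact hab (Reachable.refl _)
  intro h
  have h1 : comp (G ⊔ edge a b) a = comp G a ∪ comp G b := by
    ext w
    show (G ⊔ edge a b).Reachable a w ↔ G.Reachable a w ∨ G.Reachable b w
    rw [reachable_sup_edge_iff a w hne]
    constructor
    · rintro (h | ⟨-, h⟩ | ⟨h, -⟩)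
      · exact Or.inl h
      · exact Or.inr h
      · exact absurd h hab
    · rintro (h | h)
      · exact Or.inl h
      · exact Or.inr (Or.inl ⟨Reachable.refl _, h⟩)
  have hdisj : Disjoint (comp G a) (comp G b) := by
    rw [Set.disjoint_left]
    intro x hx hx'
    exact hab (Reachable.trans hx (Reachable.symm hx'))
  have h2 := (h a).2
  rw [h1, Set.ncard_union_eq hdisj (hG a).1 (hG b).1] at h2
  have h3 := (hG a).2
  have h4 := (hG b).2
  rw [Nat.odd_iff] at h2 h3 h4
  omega

end OneEdge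

end Pool.Agent.Lib.MP_5af839_lc
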