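import Mathlib
import Pool.Agent.Lib.MP_5af839_lc.GraphLemmas2

set_option autoImplicit false

namespace Pool.Agent.Lib.MP_5af839_lc

open SimpleGraph

/-- every nontrivial component contains, besides any given vertex, a vertex of degree one -/
def LeafProp (G : SimpleGraph ℕ) : Prop :=
  ∀ v w, G.Reachable v w → v ≠ w → ∃ u, u ≠ v ∧ G.Reachable v u ∧ ∃! x, G.Adj u x

theorem leafProp_bot : LeafProp ⊥ := by
  intro v w h hne
  rw [reachable_bot] at h
  exact absurd h hne

theorem adj_sup_edge_of_ne {G : SimpleGraph ℕ} {a b w x : ℕ} (ha : w ≠ a) (hb : w ≠ b) :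
    (G ⊔ edge a b).Adj w x ↔ G.Adj w x := by
  rw [sup_adj, edge_adj]
  constructor
  · rintro (h | ⟨⟨h, -⟩ | ⟨h, -⟩, -⟩)
    · exact h
    · exact absurd h ha
    · exact absurd h hb
  · exact Or.inl

/-- one half of the next theorem -/
theorem leafProp_aux {G : SimpleGraph ℕ} {a b : ℕ} (hab : ¬ G.Reachable a b) (hL : LeafProp G)
    {v : ℕ} (hv : G.Reachable v a) :
    ∃ u, u ≠ v ∧ (G ⊔ edge a b).Reachable v u ∧ ∃! x, (G ⊔ edge a b).Adj u x := by
  have hne : a ≠ b := by rintro rfl; exact hab (Reachable.refl _)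
  by_cases h : ∃ w, b ≠ w ∧ G.Reachable b w
  · obtain ⟨w, hbw, hw⟩ := h
    obtain ⟨u, hub, hu, hleaf⟩ := hL b w hw hbw
    have hua : u ≠ a := by rintro rfl; exact hab hu.symm
    refine ⟨u, ?_, ?_, ?_⟩
    · rintro rfl
      exact hab (hv.symm.trans hu.symm)
    · exact (reachable_sup_edge_iff v u hne).2 (Or.inr (Or.inl ⟨hv, hu⟩))
    · simpa only [adj_sup_edge_of_ne hua hub] using hleaf
  · push Not at h
    refine ⟨b, ?_, ?_, a, ?_, ?_⟩
    · rintro rfl; exact hab hv.symm
    · exact (reachable_sup_edge_iff v b hne).2 (Or.inr (Or.inl ⟨hv, Reachable.refl _⟩))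
    · show (G ⊔ edge a b).Adj b a
      rw [sup_adj, edge_adj]
      exact Or.inr ⟨Or.inr ⟨rfl, rfl⟩, hne.symm⟩
    · intro x hx
      change (G ⊔ edge a b).Adj b x at hx
      rw [sup_adj, edge_adj] at hx
      rcases hx with hx | ⟨⟨h1, h2⟩ | ⟨h1, h2⟩, -⟩
      · exact absurd hx.reachable (h x hx.ne)
      · exact absurd h1.symm hne
      · exact h2

theorem leafProp_sup_edge {G : SimpleGraph ℕ} {a b : ℕ} (hab : ¬ G.Reachable a b)
    (hL : LeafProp G) : LeafProp (G ⊔ edge a b) := by
  have hne : a ≠ b := by rintro rfl; exact hab (Reachable.refl _)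
  intro v w hvw hvwne
  by_cases hva : G.Reachable v a
  · exact leafProp_aux hab hL hva
  by_cases hvb : G.Reachable v b
  · have hba : ¬ G.Reachable b a := fun h => hab h.symm
    have := leafProp_aux hba hL hvb
    rwa [edge_comm] at this
  · rw [reachable_sup_edge_iff v w hne] at hvw
    have hvw' : G.Reachable v w := by
      rcases hvw with h | ⟨h, -⟩ | ⟨h, -⟩
      · exact h
      · exact absurd h hva
      · exact absurd h hvb
    obtain ⟨u, huv, hu, hleaf⟩ := hL v w hvw' hvwne
    have hua : u ≠ a := by rintro rfl; exact hva hu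
    have hub : u ≠ b := by rintro rfl; exact hvb hu
    refine ⟨u, huv, hu.mono le_sup_left, ?_⟩
    simpa only [adj_sup_edge_of_ne hua hub] using hleaf

/-- Seeker can control the parity of the number of leaves. -/
theorem parity_choice {G : SimpleGraph ℕ} {n c₀ : ℕ} (hn : ¬ G.Reachable n c₀)
    (hfn : (comp G n).Finite) (hfc : (comp G c₀).Finite) (hbig : 2 < (comp G c₀).ncard)
    (hL : LeafProp G) (P : Prop) :
    ∃ c, G.Reachable c₀ c ∧ (Odd (leaves (G ⊔ edge n c) n).ncard ↔ P) := by
  classical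
  -- a vertex of degree one
  obtain ⟨x, y, z, hy, hxy, hyz, hxz⟩ := exists_two_neighbours_of_card hbig
  have hcx : ∃ w, c₀ ≠ w ∧ G.Reachable c₀ w := by
    by_contra hcon
    push Not at hcon
    have h1 : c₀ = y := by
      by_contra h
      exact hcon y h hy
    have h2 : c₀ = x := by
      by_contra h
      exact hcon x h (hy.trans hxy.symm.reachable)
    exact hxy.ne (h2.symm.trans h1)
  obtain ⟨w, hw1, hw2⟩ := hcx
  obtain ⟨l, -, hl, hleaf⟩ := hL c₀ w hw2 hw1
  -- the part of the leaves that does not depend on the choice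
  let A : Set ℕ := {w | G.Reachable n w ∧
    ((w ≠ n ∧ ∃! x, G.Adj w x) ∨ (w = n ∧ ∀ x, ¬ G.Adj n x))}
  have key : ∀ c, G.Reachable c₀ c → (∃ x, G.Adj c x) →
      leaves (G ⊔ edge n c) n = A ∪ (leaves G c₀ \ {c}) := by
    intro c hc hcnb
    have hnc : ¬ G.Reachable n c := fun h => hn (h.trans hc.symm)
    have hne : n ≠ c := by rintro rfl; exact hnc (Reachable.refl _)
    ext u
    constructor
    · rintro ⟨h1, h2⟩
      rw [reachable_sup_edge_iff n u hne] at h1
      rcases h1 with h1 | ⟨-, h1⟩ | ⟨h1, -⟩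
      · left
        refine ⟨h1, ?_⟩
        by_cases hun : u = n
        · right
          subst hun
          refine ⟨rfl, fun x hx => ?_⟩
          obtain ⟨t, ht, hut⟩ := h2
          have e1 := hut x (by change (G ⊔ edge u c).Adj u x; exact Or.inl hx)
          have e2 := hut c (by
            change (G ⊔ edge u c).Adj u c
            rw [sup_adj, edge_adj]
            exact Or.inr ⟨Or.inl ⟨rfl, rfl⟩, hne⟩)
          apply hnc
          rw [e2, ← e1]
          exact hx.reachable
        · left
          have huc : u ≠ c := by rintro rfl; exact hnc h1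
          refine ⟨hun, ?_⟩
          simpa only [adj_sup_edge_of_ne hun huc] using h2
      · right
        have hun : u ≠ n := by rintro rfl; exact hnc h1.symm
        have huc : u ≠ c := by
          rintro rfl
          obtain ⟨x, hx⟩ := hcnb
          obtain ⟨t, ht, hut⟩ := h2
          have e1 := hut x (by change (G ⊔ edge n u).Adj u x; exact Or.inl hx)
          have e2 := hut n (by
            change (G ⊔ edge n u).Adj u n
            rw [sup_adj, edge_adj]
            exact Or.inr ⟨Or.inr ⟨rfl, rfl⟩, hne.symm⟩)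
          apply hnc
          rw [e2, ← e1]
          exact hx.symm.reachable
        refine ⟨⟨hc.trans h1, ?_⟩, huc⟩
        simpa only [adj_sup_edge_of_ne hun huc] using h2
      · exact absurd h1 hnc
    · rintro (⟨h1, h2⟩ | ⟨⟨h1, h2⟩, h3⟩)
      · have huc : u ≠ c := by rintro rfl; exact hnc h1
        refine ⟨h1.mono le_sup_left, ?_⟩
        rcases h2 with ⟨hun, h2⟩ | ⟨rfl, h2⟩
        · simpa only [adj_sup_edge_of_ne hun huc] using h2
        · refine ⟨c, ?_, ?_⟩
          · change (G ⊔ edge u c).Adj u c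
            rw [sup_adj, edge_adj]
            exact Or.inr ⟨Or.inl ⟨rfl, rfl⟩, hne⟩
          · intro x hx
            change (G ⊔ edge u c).Adj u x at hx
            rw [sup_adj, edge_adj] at hx
            rcases hx with hx | ⟨⟨-, h⟩ | ⟨h, -⟩, -⟩
            · exact absurd hx (h2 x)
            · exact h
            · exact absurd h hne
      · have hun : u ≠ n := by rintro rfl; exact hn h1.symm
        have huc : u ≠ c := h3
        refine ⟨?_, ?_⟩
        · exact (reachable_sup_edge_iff n u hne).2 (Or.inr (Or.inl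
            ⟨Reachable.refl _, hc.symm.trans h1⟩))
        · simpa only [adj_sup_edge_of_ne hun huc] using h2
  have hAfin : A.Finite := hfn.subset (fun w hw => hw.1)
  have hLfin : (leaves G c₀).Finite := hfc.subset (fun w hw => hw.1)
  have hdisj : ∀ c, Disjoint A (leaves G c₀ \ {c}) := by
    intro c
    rw [Set.disjoint_left]
    rintro w hw ⟨hw', -⟩
    exact hn (hw.1.trans hw'.1.symm)
  -- leaf choice
  have hl_mem : l ∈ leaves G c₀ := ⟨hl, hleaf⟩
  have hy_mem : y ∉ leaves G c₀ := by
    rintro ⟨-, t, ht, hut⟩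
    exact hxz ((hut x hxy.symm).trans (hut z hyz).symm)
  have c1 : (leaves (G ⊔ edge n l) n).ncard + 1 = A.ncard + (leaves G c₀).ncard := by
    rw [key l hl hleaf.exists, Set.ncard_union_eq (hdisj l) hAfin (hLfin.sdiff),
      add_assoc, Set.ncard_sdiff_singleton_add_one hl_mem hLfin]
  have c2 : (leaves (G ⊔ edge n y) n).ncard = A.ncard + (leaves G c₀).ncard := by
    rw [key y hy ⟨z, hyz⟩, Set.ncard_union_eq (hdisj y) hAfin (hLfin.sdiff),
      Set.sdiff_singleton_eq_self hy_mem]
  by_cases h : Odd (A.ncard + (leaves G c₀).ncard) ↔ P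
  · exact ⟨y, hy, by rw [c2]; exact h⟩
  · refine ⟨l, hl, ?_⟩
    have : Odd (leaves (G ⊔ edge n l) n).ncard ↔ ¬ Odd (A.ncard + (leaves G c₀).ncard) := by
      rw [← c1, Nat.odd_iff, Nat.odd_iff]
      omega
    rw [this]
    tauto

end Pool.Agent.Lib.MP_5af839_lc
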