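import Mathlib
import Pool.Agent.Lib.MP_5af839_lc.Defs
import Pool.Agent.Lib.MP_5af839_lc.GraphLemmas3

set_option autoImplicit false

namespace Pool.Agent.Lib.MP_5af839_lc

open SimpleGraph

/-- edges asked in a finite history -/
def asked (H : List (Sym2 ℕ × Bool)) : Set (Sym2 ℕ) := {x | ∃ b, (x, b) ∈ H}

/-- green edges of a finite history -/
def grn (H : List (Sym2 ℕ × Bool)) : Set (Sym2 ℕ) := {x | (x, true) ∈ H}

/-- green graph of a finite history -/
def Gr (H : List (Sym2 ℕ × Bool)) : SimpleGraph ℕ := fromEdgeSet (grn H)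

/-- legal histories in which Hider follows `τ` -/
inductive Cons (τ : List (Sym2 ℕ × Bool) → Sym2 ℕ → Bool) : List (Sym2 ℕ × Bool) → Prop
  | nil : Cons τ []
  | snoc {H : List (Sym2 ℕ × Bool)} {x : Sym2 ℕ} (h : Cons τ H) (hx : ¬ x.IsDiag)
      (hx' : x ∉ asked H) : Cons τ (H ++ [(x, τ H x)])

theorem asked_append (H K : List (Sym2 ℕ × Bool)) : asked (H ++ K) = asked H ∪ asked K := by
  ext x
  simp only [asked, List.mem_append, Set.mem_ofPred_eq, Set.mem_union]
  constructor
  · rintro ⟨b, h | h⟩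
    · exact Or.inl ⟨b, h⟩
    · exact Or.inr ⟨b, h⟩
  · rintro (⟨b, h⟩ | ⟨b, h⟩)
    · exact ⟨b, Or.inl h⟩
    · exact ⟨b, Or.inr h⟩

theorem grn_append (H K : List (Sym2 ℕ × Bool)) : grn (H ++ K) = grn H ∪ grn K := by
  ext x
  simp only [grn, List.mem_append, Set.mem_ofPred_eq, Set.mem_union]

theorem asked_nil : asked [] = ∅ := by
  ext x; simp [asked]

theorem grn_nil : grn [] = ∅ := by
  ext x; simp [grn]

theorem asked_singleton (x : Sym2 ℕ) (b : Bool) : asked [(x, b)] = {x} := by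
  ext y; simp [asked]

theorem grn_singleton (x : Sym2 ℕ) (b : Bool) : grn [(x, b)] = {y | y = x ∧ b = true} := by
  ext y
  simp only [grn, List.mem_singleton, Prod.mk.injEq, Set.mem_ofPred_eq]
  constructor
  · rintro ⟨h1, h2⟩; exact ⟨h1, h2.symm⟩
  · rintro ⟨h1, h2⟩; exact ⟨h1, h2.symm⟩

theorem grn_subset_asked (H : List (Sym2 ℕ × Bool)) : grn H ⊆ asked H := fun _ hx => ⟨true, hx⟩

theorem asked_mono {H K : List (Sym2 ℕ × Bool)} (h : H <+: K) : asked H ⊆ asked K := by
  obtain ⟨L, rfl⟩ := h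
  rw [asked_append]; exact Set.subset_union_left

theorem grn_mono {H K : List (Sym2 ℕ × Bool)} (h : H <+: K) : grn H ⊆ grn K := by
  obtain ⟨L, rfl⟩ := h
  rw [grn_append]; exact Set.subset_union_left

theorem Gr_mono {H K : List (Sym2 ℕ × Bool)} (h : H <+: K) : Gr H ≤ Gr K :=
  fromEdgeSet_mono (grn_mono h)

theorem asked_finite (H : List (Sym2 ℕ × Bool)) : (asked H).Finite := by
  have : asked H ⊆ (fun p : Sym2 ℕ × Bool => p.1) '' {p | p ∈ H} := by
    rintro x ⟨b, hb⟩
    exact ⟨(x, b), hb, rfl⟩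
  exact (H.finite_toSet.image _).subset this

theorem Cons.not_isDiag {τ : List (Sym2 ℕ × Bool) → Sym2 ℕ → Bool} {H : List (Sym2 ℕ × Bool)}
    (h : Cons τ H) : ∀ x ∈ asked H, ¬ x.IsDiag := by
  induction h with
  | nil => rw [asked_nil]; simp
  | @snoc H x h hx hx' ih =>
    intro y hy
    rw [asked_append, asked_singleton] at hy
    rcases hy with hy | hy
    · exact ih y hy
    · rw [hy]; exact hx

theorem asked_ncard_le (H : List (Sym2 ℕ × Bool)) : (asked H).ncard ≤ H.length := by
  classical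
  have h1 : asked H = ((H.map Prod.fst).toFinset : Set (Sym2 ℕ)) := by
    ext x
    simp [asked]
  rw [h1, Set.ncard_coe_finset]
  exact (List.toFinset_card_le _).trans (by simp)

theorem Cons.getElem {τ : List (Sym2 ℕ × Bool) → Sym2 ℕ → Bool} {H : List (Sym2 ℕ × Bool)}
    (h : Cons τ H) : ∀ k (hk : k < H.length), ¬ (H[k]).1.IsDiag ∧ (H[k]).1 ∉ asked (H.take k) ∧
      (H[k]).2 = τ (H.take k) (H[k]).1 := by
  induction h with
  | nil => intro k hk; simp at hk
  | @snoc H x h hx hx' ih =>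
    intro k hk
    rw [List.length_append, List.length_singleton] at hk
    rcases Nat.lt_succ_iff_lt_or_eq.1 hk with hk' | rfl
    · rw [List.getElem_append_left hk', List.take_append_of_le_length hk'.le]
      exact ih k hk'
    · have e1 : (H ++ [(x, τ H x)]).take H.length = H := by simp
      have e2 : (H ++ [(x, τ H x)])[H.length] = (x, τ H x) := by simp
      rw [e1, e2]
      exact ⟨hx, hx', rfl⟩

/-- A chain of histories of unbounded length gives a run. -/
theorem exists_run_of_chain {τ : List (Sym2 ℕ × Bool) → Sym2 ℕ → Bool}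
    (Hs : ℕ → List (Sym2 ℕ × Bool)) (hC : ∀ n, Cons τ (Hs n)) (hp : ∀ n, Hs n <+: Hs (n + 1))
    (hinf : (⋃ n, asked (Hs n)).Infinite) :
    ∃ (e : ℕ → Sym2 ℕ) (c : ℕ → Bool), LegalRun e ∧ (∀ n, c n = τ (history e c n) (e n)) ∧
      (∀ x, (∃ n, e n = x) ↔ ∃ n, x ∈ asked (Hs n)) ∧
      (∀ x, x ∈ greenEdges e c ↔ ∃ n, x ∈ grn (Hs n)) := by
  classical
  have hmono : ∀ m n, m ≤ n → Hs m <+: Hs n := by
    intro m n hmn
    induction hmn with
    | refl => exact List.prefix_rfl
    | step _ ih => exact ih.trans (hp _)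
  have hunb : ∀ k, ∃ m, k < (Hs m).length := by
    intro k
    by_contra hcon
    push Not at hcon
    obtain ⟨T, hT, hcard⟩ := hinf.exists_subset_card_eq (k + 1)
    have hex : ∀ x ∈ T, ∃ n, x ∈ asked (Hs n) := fun x hx => by
      simpa using hT hx
    choose! f hf using hex
    have hsub : (T : Set (Sym2 ℕ)) ⊆ asked (Hs (T.sup f)) := by
      intro x hx
      exact asked_mono (hmono _ _ (Finset.le_sup hx)) (hf x hx)
    have h1 := Set.ncard_le_ncard hsub (asked_finite _)
    rw [Set.ncard_coe_finset, hcard] at h1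
    have h2 := asked_ncard_le (Hs (T.sup f))
    have h3 := hcon (T.sup f)
    omega
  choose m hm using hunb
  let e : ℕ → Sym2 ℕ := fun k => ((Hs (m k))[k]'(hm k)).1
  let c : ℕ → Bool := fun k => ((Hs (m k))[k]'(hm k)).2
  have hget : ∀ n k (hk : k < (Hs n).length), (Hs n)[k] = (e k, c k) := by
    intro n k hk
    have key : ∀ a b (hab : a ≤ b) (ha : k < (Hs a).length) (hb : k < (Hs b).length),
        (Hs a)[k] = (Hs b)[k] := by
      intro a b hab ha hb
      obtain ⟨L, hL⟩ := hmono a b hab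
      have : (Hs b)[k] = (Hs a ++ L)[k]'(by rw [hL]; exact hb) := by
        congr 1; exact hL.symm
      rw [this, List.getElem_append_left ha]
    show (Hs n)[k] = ((Hs (m k))[k]'(hm k))
    rcases le_total n (m k) with h | h
    · exact key _ _ h hk (hm k)
    · exact (key _ _ h (hm k) hk).symm
  have hhist : ∀ n k, k ≤ (Hs n).length → history e c k = (Hs n).take k := by
    intro n k hk
    apply List.ext_getElem
    · simp [history, hk]
    · intro i h1 h2
      have hi : i < (Hs n).length := by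
        rw [List.length_take] at h2; omega
      rw [List.getElem_take, hget n i hi]
      simp [history]
  have hspec := fun k => (hC (m k)).getElem k (hm k)
  have hle : ∀ k, k ≤ (Hs (m k)).length := fun k => (hm k).le
  refine ⟨e, c, ⟨?_, ?_⟩, ?_, ?_, ?_⟩
  · intro k
    exact (hspec k).1
  · -- injectivity
    have hlt : ∀ i j, i < j → e i ≠ e j := by
      intro i j hij heq
      have h2 := (hspec j).2.1
      apply h2
      rw [← hhist (m j) j (hle j)]
      refine ⟨c i, ?_⟩
      have h3 : ((Hs (m j))[j]'(hm j)).1 = e j := rfl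
      rw [h3, ← heq]
      simp only [history, List.mem_map, List.mem_range]
      exact ⟨i, hij, rfl⟩
    intro i j hij
    rcases lt_trichotomy i j with h | h | h
    · exact absurd hij (hlt i j h)
    · exact h
    · exact absurd hij.symm (hlt j i h)
  · intro k
    rw [hhist (m k) k (hle k)]
    exact (hspec k).2.2
  · intro x
    constructor
    · rintro ⟨n, rfl⟩
      refine ⟨m n, c n, ?_⟩
      rw [show (e n, c n) = (Hs (m n))[n]'(hm n) from rfl]
      exact List.getElem_mem _
    · rintro ⟨n, b, hb⟩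
      obtain ⟨k, hk, hk'⟩ := List.getElem_of_mem hb
      rw [hget n k hk] at hk'
      exact ⟨k, congrArg Prod.fst hk'⟩
  · intro x
    constructor
    · rintro ⟨n, rfl, hn⟩
      refine ⟨m n, ?_⟩
      show (e n, true) ∈ Hs (m n)
      rw [← hn, show (e n, c n) = (Hs (m n))[n]'(hm n) from rfl]
      exact List.getElem_mem _
    · rintro ⟨n, hb⟩
      obtain ⟨k, hk, hk'⟩ := List.getElem_of_mem (show (x, true) ∈ Hs n from hb)
      rw [hget n k hk] at hk'
      exact ⟨k, congrArg Prod.fst hk', congrArg Prod.snd hk'⟩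

/-- Seeker can ask all edges except a given white one. -/
theorem exists_run_leaving {τ : List (Sym2 ℕ × Bool) → Sym2 ℕ → Bool}
    {H : List (Sym2 ℕ × Bool)} (hH : Cons τ H) {f : Sym2 ℕ} (hf : f ∉ asked H)
    (hfd : ¬ f.IsDiag) :
    ∃ (e : ℕ → Sym2 ℕ) (c : ℕ → Bool), LegalRun e ∧ (∀ n, c n = τ (history e c n) (e n)) ∧
      whiteEdges e = {f} ∧ grn H ⊆ greenEdges e c := by
  classical
  obtain ⟨enc, henc⟩ := exists_surjective_nat (Sym2 ℕ)
  let step : ℕ → List (Sym2 ℕ × Bool) → List (Sym2 ℕ × Bool) := fun n K =>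
    if ¬ (enc n).IsDiag ∧ enc n ≠ f ∧ enc n ∉ asked K then K ++ [(enc n, τ K (enc n))] else K
  let Hs : ℕ → List (Sym2 ℕ × Bool) := fun n => Nat.rec H (fun n K => step n K) n
  have hHs0 : Hs 0 = H := rfl
  have hHss : ∀ n, Hs (n + 1) = step n (Hs n) := fun n => rfl
  have hp : ∀ n, Hs n <+: Hs (n + 1) := by
    intro n
    rw [hHss]
    by_cases h : ¬ (enc n).IsDiag ∧ enc n ≠ f ∧ enc n ∉ asked (Hs n)
    · simp only [step, if_pos h]
      exact List.prefix_append _ _
    · simp only [step, if_neg h]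
      exact List.prefix_rfl
  have hC : ∀ n, Cons τ (Hs n) ∧ f ∉ asked (Hs n) := by
    intro n
    induction n with
    | zero => exact ⟨hH, hf⟩
    | succ n ih =>
      rw [hHss]
      by_cases h : ¬ (enc n).IsDiag ∧ enc n ≠ f ∧ enc n ∉ asked (Hs n)
      · simp only [step, if_pos h]
        refine ⟨Cons.snoc ih.1 h.1 h.2.2, ?_⟩
        rw [asked_append, asked_singleton]
        rintro (h1 | h1)
        · exact ih.2 h1
        · exact h.2.1 h1.symm
      · simp only [step, if_neg h]
        exact ih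
  have hall : ∀ x : Sym2 ℕ, ¬ x.IsDiag → x ≠ f → ∃ n, x ∈ asked (Hs n) := by
    intro x hx hxf
    obtain ⟨n, rfl⟩ := henc x
    by_cases h : enc n ∈ asked (Hs n)
    · exact ⟨n, h⟩
    · refine ⟨n + 1, ?_⟩
      rw [hHss]
      simp only [step]
      rw [if_pos ⟨hx, hxf, h⟩, asked_append, asked_singleton]
      exact Or.inr rfl
  have hinf : (⋃ n, asked (Hs n)).Infinite := by
    have hsub : (fun k : ℕ => (s(0, k + 1) : Sym2 ℕ)) '' {k | s(0, k + 1) ≠ f} ⊆
        ⋃ n, asked (Hs n) := by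
      rintro _ ⟨k, hk, rfl⟩
      rw [Set.mem_iUnion]
      exact hall _ (by simp) hk
    refine Set.Infinite.mono hsub ?_
    refine Set.Infinite.image ?_ ?_
    · intro a _ b _ hab
      simpa using hab
    · have : {k : ℕ | (s(0, k + 1) : Sym2 ℕ) ≠ f} = {k : ℕ | (s(0, k + 1) : Sym2 ℕ) = f}ᶜ := rfl
      rw [this]
      apply Set.Finite.infinite_compl
      apply Set.Subsingleton.finite
      intro a ha b hb
      have : (s(0, a + 1) : Sym2 ℕ) = s(0, b + 1) := ha.trans hb.symm
      simpa using this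
  obtain ⟨e, c, h1, h2, h3, h4⟩ := exists_run_of_chain Hs (fun n => (hC n).1) hp hinf
  refine ⟨e, c, h1, h2, ?_, ?_⟩
  · ext x
    constructor
    · rintro ⟨hx, hx'⟩
      by_contra hxf
      obtain ⟨n, hn⟩ := (h3 x).2 (hall x hx hxf)
      exact hx' n hn
    · rintro rfl
      refine ⟨hfd, fun n hn => ?_⟩
      obtain ⟨k, hk⟩ := (h3 x).1 ⟨n, hn⟩
      exact (hC k).2 hk
  · intro x hx
    exact (h4 x).2 ⟨0, hx⟩

end Pool.Agent.Lib.MP_5af839_lc
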