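import Mathlib
import Pool.Agent.Lib.MP_5af839_lc.Game

set_option autoImplicit false

namespace Pool.Agent.Lib.MP_5af839_lc

open SimpleGraph

/-- two pairs of sequences that agree from some point on -/
def evSetoid : Setoid ((ℕ → Bool) × (ℕ → Bool)) where
  r p q := ∃ N, ∀ n ≥ N, p.1 n = q.1 n ∧ p.2 n = q.2 n
  iseqv :=
    { refl := fun p => ⟨0, fun n _ => ⟨rfl, rfl⟩⟩
      symm := by
        rintro p q ⟨N, h⟩
        exact ⟨N, fun n hn => ⟨(h n hn).1.symm, (h n hn).2.symm⟩⟩
      trans := by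
        rintro p q r ⟨N, h⟩ ⟨M, h'⟩
        refine ⟨max N M, fun n hn => ?_⟩
        have h1 := h n (le_trans (le_max_left _ _) hn)
        have h2 := h' n (le_trans (le_max_right _ _) hn)
        exact ⟨h1.1.trans h2.1, h1.2.trans h2.2⟩ }

/-- the classes -/
abbrev Om := Quotient evSetoid

/-- the class of a pair of sequences -/
def cls (r y : ℕ → Bool) : Om := Quotient.mk evSetoid (r, y)

/-- the graph property attached to a set of classes -/
def propOf (X : Set Om) : Set (SimpleGraph ℕ) :=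
  {G | Odds G ∧ ∃ r y, Match G r y ∧ cls r y ∈ X}

theorem propOf_isGraphProperty (X : Set Om) : IsGraphProperty (propOf X) := by
  rintro G ⟨h1, r, y, h2, h3⟩ G' ⟨φ⟩
  exact ⟨odds_iso φ h1, r, y, match_iso φ h2, h3⟩

theorem Match.cls_eq {G : SimpleGraph ℕ} {r y r' y' : ℕ → Bool} (h : Match G r y)
    (h' : Match G r' y') : cls r y = cls r' y' := by
  obtain ⟨N, hN⟩ := h
  obtain ⟨N', hN'⟩ := h'
  apply Quotient.sound
  refine ⟨max N N', fun n hn => ?_⟩
  obtain ⟨⟨v, hv⟩, h1⟩ := hN n (le_trans (le_max_left _ _) hn)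
  obtain ⟨-, h2⟩ := hN' n (le_trans (le_max_right _ _) hn)
  obtain ⟨a1, -, a3⟩ := h1 v hv
  obtain ⟨b1, -, b3⟩ := h2 v hv
  constructor
  · show r n = r' n
    cases hr : r n <;> cases hr' : r' n <;> simp [hr, hr'] at a1 b1 ⊢ <;> omega
  · show y n = y' n
    have : y n = true ↔ y' n = true := a3.symm.trans b3
    cases hy : y n <;> cases hy' : y' n <;> simp [hy, hy'] at this ⊢

theorem not_isDiag_mk {x y : ℕ} (h : x ≠ y) : ¬ (s(x, y) : Sym2 ℕ).IsDiag := by
  simpa using h

/-- If exactly one edge is white at the end then there are two completions. -/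
theorem completions_eq {e : ℕ → Sym2 ℕ} {c : ℕ → Bool} {x y : ℕ}
    (hw : whiteEdges e = {s(x, y)}) {H : SimpleGraph ℕ}
    (hH : H ∈ completions e c) :
    H = fromEdgeSet (greenEdges e c) ∨ H = fromEdgeSet (greenEdges e c) ⊔ edge x y := by
  obtain ⟨h1, h2⟩ := hH
  rw [hw] at h2
  by_cases hf : s(x, y) ∈ H.edgeSet
  · right
    ext a b
    rw [sup_adj, edge_adj, fromEdgeSet_adj]
    constructor
    · intro hab
      rcases h2 ((mem_edgeSet _).2 hab) with h | h
      · exact Or.inl ⟨h, hab.ne⟩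
      · right
        refine ⟨?_, hab.ne⟩
        have : (s(a, b) : Sym2 ℕ) = s(x, y) := h
        rw [Sym2.eq_iff] at this
        exact this
    · rintro (⟨h, -⟩ | ⟨⟨rfl, rfl⟩ | ⟨rfl, rfl⟩, -⟩)
      · exact (mem_edgeSet _).1 (h1 h)
      · exact (mem_edgeSet _).1 hf
      · exact ((mem_edgeSet _).1 hf).symm
  · left
    ext a b
    rw [fromEdgeSet_adj]
    constructor
    · intro hab
      rcases h2 ((mem_edgeSet _).2 hab) with h | h
      · exact ⟨h, hab.ne⟩
      · exfalso
        apply hf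
        have : (s(a, b) : Sym2 ℕ) = s(x, y) := h
        rw [← this]
        exact (mem_edgeSet _).2 hab
    · rintro ⟨h, -⟩
      exact (mem_edgeSet _).1 (h1 h)

/-- What we want to show: against Hider's strategy `τ` and for every `g` there is a run that
Seeker wins unless the property contains a class with second coordinate `g`. -/
def Beatable (τ : List (Sym2 ℕ × Bool) → Sym2 ℕ → Bool) (g : ℕ → Bool) : Prop :=
  ∃ ρ : ℕ → Bool, ∃ (e : ℕ → Sym2 ℕ) (c : ℕ → Bool), LegalRun e ∧
    (∀ n, c n = τ (history e c n) (e n)) ∧ ∀ X : Set Om, cls ρ g ∉ X →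
      SeekerWins (propOf X) e c

/-- If Hider leaves a white edge inside a green component, Seeker wins. -/
theorem beatable_of_violation {τ : List (Sym2 ℕ × Bool) → Sym2 ℕ → Bool} (g : ℕ → Bool)
    {H : List (Sym2 ℕ × Bool)} (hH : Cons τ H) {x y : ℕ} (hxy : x ≠ y)
    (hr : (Gr H).Reachable x y) (hna : s(x, y) ∉ asked H) : Beatable τ g := by
  obtain ⟨e, c, h1, h2, h3, h4⟩ := exists_run_leaving hH hna (not_isDiag_mk hxy)
  refine ⟨g, e, c, h1, h2, fun X _ => ⟨by rw [h3]; exact Set.singleton_nonempty _, ?_⟩⟩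
  set G := fromEdgeSet (greenEdges e c) with hG
  have hr' : G.Reachable x y := hr.mono (fromEdgeSet_mono h4)
  have hiff : G ∈ propOf X ↔ G ⊔ edge x y ∈ propOf X := by
    constructor
    · rintro ⟨h5, r, z, h6, h7⟩
      have h5' := (odds_sup_edge_of_reachable hxy hr').2 h5
      exact ⟨h5', r, z, (match_sup_edge hxy (h5' x).1 r z).2 h6, h7⟩
    · rintro ⟨h5, r, z, h6, h7⟩
      exact ⟨(odds_sup_edge_of_reachable hxy hr').1 h5, r, z,
        (match_sup_edge hxy (h5 x).1 r z).1 h6, h7⟩
  by_cases hGX : G ∈ propOf X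
  · left
    intro K hK
    rcases completions_eq h3 hK with rfl | rfl
    · exact hGX
    · exact hiff.1 hGX
  · right
    rw [Set.disjoint_left]
    intro K hK hKX
    rcases completions_eq h3 hK with rfl | rfl
    · exact hGX hKX
    · exact hGX (hiff.2 hKX)

section Stage

variable {τ : List (Sym2 ℕ × Bool) → Sym2 ℕ → Bool}

/-- no violation ever happens -/
def NV (τ : List (Sym2 ℕ × Bool) → Sym2 ℕ → Bool) : Prop :=
  ∀ H, Cons τ H → ∀ x y, x ≠ y → (Gr H).Reachable x y → s(x, y) ∈ asked H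

theorem ask_all (T : Finset (Sym2 ℕ)) : ∀ {H : List (Sym2 ℕ × Bool)}, Cons τ H →
    (∀ x ∈ T, ¬ x.IsDiag ∧ x ∉ asked H) →
    ∃ H', H <+: H' ∧ Cons τ H' ∧ asked H' = asked H ∪ T ∧ grn H' ⊆ grn H ∪ T := by
  classical
  induction T using Finset.induction_on with
  | empty =>
    intro H hH _
    exact ⟨H, List.prefix_rfl, hH, by simp, by simp⟩
  | @insert x T hxT ih =>
    intro H hH hT
    obtain ⟨hx1, hx2⟩ := hT x (Finset.mem_insert_self _ _)
    have hC := Cons.snoc hH hx1 hx2
    obtain ⟨H', h1, h2, h3, h4⟩ := ih hC (by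
      intro y hy
      obtain ⟨h5, h6⟩ := hT y (Finset.mem_insert_of_mem hy)
      refine ⟨h5, ?_⟩
      rw [asked_append, asked_singleton]
      rintro (h | h)
      · exact h6 h
      · have : y = x := h
        rw [this] at hy
        exact hxT hy)
    refine ⟨H', (List.prefix_append _ _).trans h1, h2, ?_, ?_⟩
    · rw [h3, asked_append, asked_singleton]
      ext y
      simp only [Set.mem_union, Set.mem_singleton_iff, Finset.coe_insert, Set.mem_insert_iff,
        Finset.mem_coe]
      tauto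
    · intro y hy
      have := h4 hy
      rw [grn_append, grn_singleton] at this
      simp only [Set.mem_union, Set.mem_ofPred_eq, Finset.coe_insert, Set.mem_insert_iff,
        Finset.mem_coe] at this ⊢
      tauto

theorem Gr_eq_sup_edge {H H' : List (Sym2 ℕ × Bool)} {n c : ℕ}
    (h : grn H' = grn H ∪ {s(n, c)}) : Gr H' = Gr H ⊔ edge n c := by
  unfold Gr
  rw [h, fromEdgeSet_union]
  rfl

/-- Processing one component: ask all edges from `n` to the component of `c`, the edge to `c`
last. -/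
theorem process (hNV : NV τ) {H : List (Sym2 ℕ × Bool)} (hH : Cons τ H) {n c : ℕ}
    (hfin : (comp (Gr H) c).Finite) (hnc : n ≠ c)
    (hask : ∀ x ∈ comp (Gr H) c, s(n, x) ∉ asked H) :
    ¬ (Gr H).Reachable n c ∧
    ∃ H', H <+: H' ∧ Cons τ H' ∧ asked H' = asked H ∪ (fun x => s(n, x)) '' comp (Gr H) c ∧
      (grn H' = grn H ∨ grn H' = grn H ∪ {s(n, c)}) := by
  classical
  have hnr : ¬ (Gr H).Reachable n c := fun h =>
    hask c (mem_comp_self _ _) (hNV H hH n c hnc h)
  refine ⟨hnr, ?_⟩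
  have hnx : ∀ x ∈ comp (Gr H) c, n ≠ x := by
    rintro x hx rfl
    exact hnr (Reachable.symm hx)
  let T : Finset (Sym2 ℕ) := ((hfin.toFinset).erase c).image (fun x => s(n, x))
  obtain ⟨H₁, h1, h2, h3, h4⟩ := ask_all T hH (by
    intro x hx
    simp only [T, Finset.mem_image, Finset.mem_erase, Set.Finite.mem_toFinset] at hx
    obtain ⟨a, ⟨ha1, ha2⟩, rfl⟩ := hx
    exact ⟨not_isDiag_mk (hnx a ha2), hask a ha2⟩)
  have hcn : s(n, c) ∉ asked H₁ := by
    rw [h3]
    rintro (h | h)
    · exact hask c (mem_comp_self _ _) h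
    · simp only [T, Finset.coe_image, Finset.coe_erase, Set.mem_image] at h
      obtain ⟨a, ⟨ha1, ha2⟩, ha3⟩ := h
      apply ha2
      rw [Sym2.eq_iff] at ha3
      rcases ha3 with ⟨-, h⟩ | ⟨h, -⟩
      · exact h
      · exact absurd h hnc
  have hg1 : grn H₁ = grn H := by
    apply Set.Subset.antisymm _ (grn_mono h1)
    intro x hx
    rcases h4 hx with h | h
    · exact h
    · exfalso
      simp only [T, Finset.coe_image, Finset.coe_erase, Set.mem_image] at h
      obtain ⟨a, ⟨ha1, ha2⟩, rfl⟩ := h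
      have ha1' : a ∈ comp (Gr H) c := by simpa using ha1
      apply hcn
      refine hNV H₁ h2 n c hnc ?_
      have e1 : (Gr H₁).Adj n a := by
        unfold Gr
        rw [fromEdgeSet_adj]
        exact ⟨hx, hnx a ha1'⟩
      exact e1.reachable.trans (Reachable.mono (Gr_mono h1) (Reachable.symm ha1'))
  refine ⟨H₁ ++ [(s(n, c), τ H₁ s(n, c))], h1.trans (List.prefix_append _ _),
    Cons.snoc h2 (not_isDiag_mk hnc) hcn, ?_, ?_⟩
  · rw [asked_append, asked_singleton, h3]
    ext x
    simp only [T, Set.mem_union, Finset.coe_image, Finset.coe_erase, Set.mem_image,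
      Set.mem_singleton_iff, Set.Finite.coe_toFinset, Set.mem_sdiff]
    constructor
    · rintro ((h | ⟨a, ⟨h, -⟩, rfl⟩) | rfl)
      · exact Or.inl h
      · exact Or.inr ⟨a, h, rfl⟩
      · exact Or.inr ⟨c, mem_comp_self _ _, rfl⟩
    · rintro (h | ⟨a, h, rfl⟩)
      · exact Or.inl (Or.inl h)
      · by_cases hac : a = c
        · right; rw [hac]
        · exact Or.inl (Or.inr ⟨a, ⟨h, hac⟩, rfl⟩)
  · rw [grn_append, grn_singleton, hg1]
    by_cases h : τ H₁ s(n, c) = true
    · right
      ext x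
      simp [h]
    · left
      ext x
      simp [h]

end Stage

end Pool.Agent.Lib.MP_5af839_lc
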