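import Mathlib
import Pool.Agent.Lib.MP_5af839_lc.SeekerPlay

set_option autoImplicit false

namespace Pool.Agent.Lib.MP_5af839_lc

open SimpleGraph

/-- all edges below `n` except the edge `01` -/
def E (n : ℕ) : Set (Sym2 ℕ) := {x | ∃ i j, i < j ∧ j < n ∧ x = s(i, j) ∧ x ≠ s(0, 1)}

theorem mem_E {n a b : ℕ} (hab : a ≠ b) (ha : a < n) (hb : b < n) (h : (s(a, b) : Sym2 ℕ) ≠ s(0, 1)) :
    s(a, b) ∈ E n := by
  rcases lt_or_gt_of_ne hab with h1 | h1
  · exact ⟨a, b, h1, hb, rfl, h⟩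
  · exact ⟨b, a, h1, ha, Sym2.eq_swap, h⟩

theorem lt_of_mem_E {n a b : ℕ} (h : s(a, b) ∈ E n) : a < n ∧ b < n := by
  obtain ⟨i, j, hij, hj, h1, -⟩ := h
  rw [Sym2.eq_iff] at h1
  rcases h1 with ⟨rfl, rfl⟩ | ⟨rfl, rfl⟩
  · exact ⟨hij.trans hj, hj⟩
  · exact ⟨hj, hij.trans hj⟩

variable {τ : List (Sym2 ℕ × Bool) → Sym2 ℕ → Bool}

/-- the situation in the middle of stage `n` -/
structure Mid (τ : List (Sym2 ℕ × Bool) → Sym2 ℕ → Bool) (H₀ : List (Sym2 ℕ × Bool)) (n : ℕ)
    (H : List (Sym2 ℕ × Bool)) (D : Set ℕ) : Prop where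
  pre : H₀ <+: H
  cons : Cons τ H
  Dlt : ∀ a ∈ D, a < n
  closed : ∀ a ∈ D, ∀ b, (Gr H₀).Reachable a b → b ∈ D
  ask : asked H = asked H₀ ∪ (fun x => s(n, x)) '' D
  leaf : LeafProp (Gr H)
  gr : grn H ⊆ grn H₀ ∪ (fun x => s(n, x)) '' D

theorem mk_inj {n x y : ℕ} (h : (s(n, x) : Sym2 ℕ) = s(n, y)) : x = y := by
  rw [Sym2.eq_iff] at h
  rcases h with ⟨-, h⟩ | ⟨h1, h2⟩
  · exact h
  · exact h2.trans h1

section

variable {H₀ H : List (Sym2 ℕ × Bool)} {n : ℕ} {D : Set ℕ}

theorem reach_lt (hE : asked H₀ = E n) {a b : ℕ} (ha : a < n) (h : (Gr H₀).Reachable a b) :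
    b < n := by
  rw [reachable_eq_reflTransGen] at h
  induction h with
  | refl => exact ha
  | @tail w v _ hwv _ =>
    unfold Gr at hwv
    rw [fromEdgeSet_adj] at hwv
    have h2 := grn_subset_asked _ hwv.1
    rw [hE] at h2
    exact (lt_of_mem_E h2).2

theorem Mid.unasked (hE : asked H₀ = E n) (hM : Mid τ H₀ n H D) {a : ℕ} (ha : a ∉ D) :
    s(n, a) ∉ asked H := by
  rw [hM.ask, hE]
  rintro (h | ⟨x, hx, hxa⟩)
  · exact absurd (lt_of_mem_E h).1 (lt_irrefl n)
  · rw [mk_inj hxa] at hx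
    exact ha hx

theorem Mid.reach_n (hNV : NV τ) (hE : asked H₀ = E n) (hM : Mid τ H₀ n H D) {a : ℕ}
    (h : (Gr H).Reachable n a) (hna : a ≠ n) : a ∈ D := by
  by_contra hD
  exact hM.unasked hE hD (hNV H hM.cons n a hna.symm h)

theorem Mid.comp_eq (hM : Mid τ H₀ n H D) {a : ℕ} (h : ¬ (Gr H).Reachable n a) :
    comp (Gr H) a = comp (Gr H₀) a := by
  apply Set.Subset.antisymm
  · intro w hw
    have hw' : (Gr H).Reachable a w := hw
    rw [reachable_eq_reflTransGen] at hw'
    induction hw' with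
    | refl => exact mem_comp_self _ _
    | @tail u v hu huv ih =>
      have hu' : (Gr H).Reachable a u := by rw [reachable_eq_reflTransGen]; exact hu
      have ih' := ih hu'
      have hun : u ≠ n := by
        rintro rfl
        exact h hu'.symm
      have hvn : v ≠ n := by
        rintro rfl
        exact h (hu'.trans huv.reachable).symm
      unfold Gr at huv
      rw [fromEdgeSet_adj] at huv
      rcases hM.gr huv.1 with h1 | ⟨x, hx, hx'⟩
      · have : (Gr H₀).Adj u v := by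
          unfold Gr
          rw [fromEdgeSet_adj]
          exact ⟨h1, huv.2⟩
        exact Reachable.trans ih' this.reachable
      · exfalso
        change s(n, x) = s(u, v) at hx'
        rw [Sym2.eq_iff] at hx'
        rcases hx' with ⟨h2, -⟩ | ⟨h2, -⟩
        · exact hun h2.symm
        · exact hvn h2.symm
  · intro w hw
    exact Reachable.mono (Gr_mono hM.pre) hw

theorem Mid.finite_n (hNV : NV τ) (hE : asked H₀ = E n) (hM : Mid τ H₀ n H D) :
    (comp (Gr H) n).Finite := by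
  apply (Set.finite_Iic n).subset
  intro a ha
  by_cases h : a = n
  · rw [h]; exact Set.mem_Iic.2 le_rfl
  · exact (hM.Dlt a (hM.reach_n hNV hE ha h)).le

theorem finite_comp₀ (hE : asked H₀ = E n) {a : ℕ} (ha : a < n) : (comp (Gr H₀) a).Finite := by
  apply (Set.finite_Iio n).subset
  intro b hb
  exact reach_lt hE ha hb

theorem Mid.step (hNV : NV τ) (hE : asked H₀ = E n) (hM : Mid τ H₀ n H D) {a c : ℕ}
    (ha : a < n) (haD : a ∉ D) (hc : (Gr H).Reachable a c) :
    ∃ H', Mid τ H₀ n H' (D ∪ comp (Gr H₀) a) ∧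
      (Gr H' = Gr H ∨ Gr H' = Gr H ⊔ edge n c) := by
  have hna : ¬ (Gr H).Reachable n a := fun h =>
    hM.unasked hE haD (hNV H hM.cons n a (by omega) h)
  have hca : comp (Gr H) c = comp (Gr H₀) a := by
    rw [← comp_eq_of_reachable hc, hM.comp_eq hna]
  have hcn : c < n := by
    have : c ∈ comp (Gr H₀) a := by rw [← hca]; exact mem_comp_self _ _
    exact reach_lt hE ha this
  have hnotD : ∀ x ∈ comp (Gr H₀) a, x ∉ D := by
    intro x hx hxD
    exact haD (hM.closed x hxD a (Reachable.symm hx))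
  obtain ⟨hnr, H', h1, h2, h3, h4⟩ := process hNV hM.cons (n := n) (c := c)
    (by rw [hca]; exact finite_comp₀ hE ha) (by omega)
    (by rw [hca]; intro x hx; exact hM.unasked hE (hnotD x hx))
  have hgr : Gr H' = Gr H ∨ Gr H' = Gr H ⊔ edge n c := by
    rcases h4 with h4 | h4
    · left; unfold Gr; rw [h4]
    · right; exact Gr_eq_sup_edge h4
  refine ⟨H', ⟨hM.pre.trans h1, h2, ?_, ?_, ?_, ?_, ?_⟩, hgr⟩
  · rintro x (hx | hx)
    · exact hM.Dlt x hx
    · exact reach_lt hE ha hx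
  · rintro x (hx | hx) y hxy
    · exact Or.inl (hM.closed x hx y hxy)
    · exact Or.inr (Reachable.trans hx hxy)
  · rw [h3, hM.ask, hca, Set.image_union, Set.union_assoc]
  · rcases hgr with h | h
    · rw [h]; exact hM.leaf
    · rw [h]; exact leafProp_sup_edge hnr hM.leaf
  · rw [Set.image_union, ← Set.union_assoc]
    rcases h4 with h4 | h4
    · rw [h4]
      exact hM.gr.trans Set.subset_union_left
    · rw [h4]
      apply Set.union_subset (hM.gr.trans Set.subset_union_left)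
      rintro x rfl
      right
      exact ⟨c, by rw [← hca]; exact mem_comp_self _ _, rfl⟩

/-- the control that Seeker has over the component of `n` at the end of stage `n` -/
def Ctl (H₀ : List (Sym2 ℕ × Bool)) (g : ℕ → Bool) (n : ℕ) (G : SimpleGraph ℕ) : Prop :=
  (∀ a, G.Reachable n a → a ≠ n → (comp (Gr H₀) a).ncard ≤ 2) ∨
    (Odd (leaves G n).ncard ↔ g (((comp G n).ncard - 7) / 4) = true)

theorem phase_one (hNV : NV τ) (hE : asked H₀ = E n) (hC : Cons τ H₀) (hL : LeafProp (Gr H₀)) :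
    ∀ m ≤ n, ∃ H D, Mid τ H₀ n H D ∧ (∀ a ∈ D, (comp (Gr H₀) a).ncard ≤ 2) ∧
      ∀ a < m, (comp (Gr H₀) a).ncard ≤ 2 → a ∈ D := by
  intro m
  induction m with
  | zero =>
    intro _
    refine ⟨H₀, ∅, ⟨List.prefix_rfl, hC, by simp, by simp, by simp, hL, by simp⟩, by simp, ?_⟩
    intro a ha
    omega
  | succ m ih =>
    intro hm
    obtain ⟨H, D, hM, h1, h2⟩ := ih (by omega)
    by_cases hmD : m ∈ D
    · refine ⟨H, D, hM, h1, ?_⟩
      intro a ha hsmall
      rcases Nat.lt_succ_iff_lt_or_eq.1 ha with h | rfl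
      · exact h2 a h hsmall
      · exact hmD
    by_cases hsm : (comp (Gr H₀) m).ncard ≤ 2
    · obtain ⟨H', hM', -⟩ := hM.step hNV hE (a := m) (c := m) (by omega) hmD (Reachable.refl _)
      refine ⟨H', _, hM', ?_, ?_⟩
      · rintro a (ha | ha)
        · exact h1 a ha
        · rw [← comp_eq_of_reachable ha]; exact hsm
      · intro a ha hsmall
        rcases Nat.lt_succ_iff_lt_or_eq.1 ha with h | rfl
        · exact Or.inl (h2 a h hsmall)
        · exact Or.inr (mem_comp_self _ _)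
    · refine ⟨H, D, hM, h1, ?_⟩
      intro a ha hsmall
      rcases Nat.lt_succ_iff_lt_or_eq.1 ha with h | rfl
      · exact h2 a h hsmall
      · exact absurd hsmall hsm

theorem phase_two (g : ℕ → Bool) (hNV : NV τ) (hE : asked H₀ = E n) (hC : Cons τ H₀)
    (hL : LeafProp (Gr H₀)) :
    ∀ m ≤ n, ∃ H D, Mid τ H₀ n H D ∧ Ctl H₀ g n (Gr H) ∧
      (∀ a < n, (comp (Gr H₀) a).ncard ≤ 2 → a ∈ D) ∧ ∀ a < m, a ∈ D := by
  intro m
  induction m with
  | zero =>
    intro _
    obtain ⟨H, D, hM, h1, h2⟩ := phase_one hNV hE hC hL n le_rfl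
    refine ⟨H, D, hM, Or.inl ?_, h2, by intro a ha; omega⟩
    intro a ha hna
    exact h1 a (hM.reach_n hNV hE ha hna)
  | succ m ih =>
    intro hm
    obtain ⟨H, D, hM, h1, h2, h3⟩ := ih (by omega)
    by_cases hmD : m ∈ D
    · refine ⟨H, D, hM, h1, h2, ?_⟩
      intro a ha
      rcases Nat.lt_succ_iff_lt_or_eq.1 ha with h | rfl
      · exact h3 a h
      · exact hmD
    have hmn : m < n := by omega
    have hbig : 2 < (comp (Gr H₀) m).ncard := by
      by_contra hcon
      exact hmD (h2 m hmn (by omega))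
    have hna : ¬ (Gr H).Reachable n m := fun h => hmD (hM.reach_n hNV hE h (by omega))
    have hcomp := hM.comp_eq hna
    have hfn := hM.finite_n hNV hE
    have hfm : (comp (Gr H) m).Finite := by rw [hcomp]; exact finite_comp₀ hE hmn
    obtain ⟨c, hc, hodd⟩ := parity_choice hna hfn hfm (by rw [hcomp]; exact hbig) hM.leaf
      (g (((comp (Gr H) n).ncard + (comp (Gr H) m).ncard - 7) / 4) = true)
    obtain ⟨H', hM', hgr⟩ := hM.step hNV hE hmn hmD hc
    refine ⟨H', _, hM', ?_, fun a ha hs => Or.inl (h2 a ha hs), ?_⟩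
    · rcases hgr with h | h
      · rw [h]; exact h1
      · rw [h]
        right
        rw [hodd]
        have hnc : ¬ (Gr H).Reachable n c := fun h => hna (h.trans hc.symm)
        have hne : n ≠ c := by rintro rfl; exact hnc (Reachable.refl _)
        have e1 : comp (Gr H ⊔ edge n c) n = comp (Gr H) n ∪ comp (Gr H) m := by
          ext w
          show (Gr H ⊔ edge n c).Reachable n w ↔ (Gr H).Reachable n w ∨ (Gr H).Reachable m w
          rw [reachable_sup_edge_iff n w hne]
          constructor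
          · rintro (h | ⟨-, h⟩ | ⟨h, -⟩)
            · exact Or.inl h
            · exact Or.inr (hc.trans h)
            · exact absurd h hnc
          · rintro (h | h)
            · exact Or.inl h
            · exact Or.inr (Or.inl ⟨Reachable.refl _, hc.symm.trans h⟩)
        have hdisj : Disjoint (comp (Gr H) n) (comp (Gr H) m) := by
          rw [Set.disjoint_left]
          intro x hx hx'
          exact hna (Reachable.trans hx (Reachable.symm hx'))
        rw [e1, Set.ncard_union_eq hdisj hfn hfm]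
    · intro a ha
      rcases Nat.lt_succ_iff_lt_or_eq.1 ha with h | rfl
      · exact Or.inl (h3 a h)
      · exact Or.inr (mem_comp_self _ _)

theorem E_succ (hn : 2 ≤ n) : E (n + 1) = E n ∪ (fun x => s(n, x)) '' {a | a < n} := by
  ext x
  constructor
  · rintro ⟨i, j, hij, hj, rfl, hne⟩
    rcases Nat.lt_succ_iff_lt_or_eq.1 hj with h | rfl
    · exact Or.inl ⟨i, j, hij, h, rfl, hne⟩
    · exact Or.inr ⟨i, hij, Sym2.eq_swap⟩
  · rintro (⟨i, j, hij, hj, rfl, hne⟩ | ⟨a, ha, rfl⟩)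
    · exact ⟨i, j, hij, by omega, rfl, hne⟩
    · refine ⟨a, n, ha, by omega, Sym2.eq_swap, ?_⟩
      intro h
      change s(n, a) = s(0, 1) at h
      rw [Sym2.eq_iff] at h
      have ha' : a < n := ha
      omega

/-- One stage of Seeker's play. -/
theorem stage (g : ℕ → Bool) (hNV : NV τ) (hn : 2 ≤ n) (hE : asked H₀ = E n) (hC : Cons τ H₀)
    (hL : LeafProp (Gr H₀)) :
    ∃ H', H₀ <+: H' ∧ Cons τ H' ∧ asked H' = E (n + 1) ∧ LeafProp (Gr H') ∧
      Ctl H₀ g n (Gr H') := by
  obtain ⟨H, D, hM, h1, -, h3⟩ := phase_two g hNV hE hC hL n le_rfl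
  refine ⟨H, hM.pre, hM.cons, ?_, hM.leaf, h1⟩
  have : D = {a | a < n} := Set.Subset.antisymm (fun a ha => hM.Dlt a ha) h3
  rw [hM.ask, hE, this, E_succ hn]

end

end Pool.Agent.Lib.MP_5af839_lc
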