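import Mathlib
import Pool.Agent.Lib.MP_5af839_lc.Stage

set_option autoImplicit false

namespace Pool.Agent.Lib.MP_5af839_lc

open SimpleGraph

theorem Cons.color_unique {τ : List (Sym2 ℕ × Bool) → Sym2 ℕ → Bool}
    {H : List (Sym2 ℕ × Bool)} (h : Cons τ H) :
    ∀ x b b', (x, b) ∈ H → (x, b') ∈ H → b = b' := by
  induction h with
  | nil => intro x b b' h; simp at h
  | @snoc H y h hy hy' ih =>
    intro x b b' h1 h2
    rw [List.mem_append, List.mem_singleton, Prod.mk.injEq] at h1 h2
    rcases h1 with h1 | ⟨rfl, h1⟩ <;> rcases h2 with h2 | ⟨h2, h2'⟩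
    · exact ih x b b' h1 h2
    · rw [h2] at h1
      exact absurd ⟨b, h1⟩ hy'
    · exact absurd ⟨b', h2⟩ hy'
    · rw [h1, h2']

theorem E_two : E 2 = ∅ := by
  ext x
  simp only [Set.mem_empty_iff_false, iff_false]
  rintro ⟨i, j, hij, hj, rfl, hne⟩
  apply hne
  have h1 : i = 0 := by omega
  have h2 : j = 1 := by omega
  rw [h1, h2]

theorem not_mem_E (n : ℕ) : s(0, 1) ∉ E n := by
  rintro ⟨i, j, hij, hj, h, hne⟩
  exact hne rfl

/-- Comparison of the final green graph with the green graph after stage `m`. -/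
theorem compare {G G' : SimpleGraph ℕ} {m : ℕ} (hle : G' ≤ G)
    (hadj : ∀ a b, a ≤ m → b ≤ m → G.Adj a b → G'.Adj a b) (hK : ∀ x ∈ comp G m, x ≤ m) :
    comp G' m = comp G m ∧ leaves G' m = leaves G m := by
  have h1 : comp G' m = comp G m := by
    apply Set.Subset.antisymm
    · intro x hx
      exact Reachable.mono hle hx
    · intro x hx
      have hx' : G.Reachable m x := hx
      rw [reachable_eq_reflTransGen] at hx'
      induction hx' with
      | refl => exact mem_comp_self _ _
      | @tail u v hu huv ih =>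
        have hu' : G.Reachable m u := by rw [reachable_eq_reflTransGen]; exact hu
        have hv' : G.Reachable m v := hu'.trans huv.reachable
        exact Reachable.trans (ih hu') (hadj u v (hK u hu') (hK v hv') huv).reachable
  refine ⟨h1, ?_⟩
  have h2 : ∀ w, G.Reachable m w → ∀ x, (G'.Adj w x ↔ G.Adj w x) := by
    intro w hw x
    constructor
    · intro h; exact hle h
    · intro h
      exact hadj w x (hK w hw) (hK x (hw.trans h.reachable)) h
  ext w
  constructor
  · rintro ⟨h3, h4⟩
    have h3' : G.Reachable m w := h3.mono hle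
    exact ⟨h3', by simpa only [h2 w h3'] using h4⟩
  · rintro ⟨h3, h4⟩
    have h3' : w ∈ comp G' m := by rw [h1]; exact h3
    exact ⟨h3', by simpa only [h2 w h3] using h4⟩

/-- A path on three vertices below `m` in the component of `m` gives a big component of the
previous stage. -/
theorem three_path {G₀ : SimpleGraph ℕ} {a b c : ℕ} (hab : G₀.Adj a b) (hbc : G₀.Adj b c)
    (hac : a ≠ c) (hfin : (comp G₀ b).Finite) : 2 < (comp G₀ b).ncard := by
  have hsub : ({a, b, c} : Set ℕ) ⊆ comp G₀ b := by
    rintro x (rfl | rfl | rfl)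
    · exact hab.symm.reachable
    · exact mem_comp_self _ _
    · exact hbc.reachable
  have h1 := Set.ncard_le_ncard hsub hfin
  have h2 : ({a, b, c} : Set ℕ).ncard = 3 := by
    rw [Set.ncard_eq_three]
    exact ⟨a, b, c, hab.ne, hac, hbc.ne, rfl⟩
  omega

theorem beatable_of_NV {τ : List (Sym2 ℕ × Bool) → Sym2 ℕ → Bool} (hNV : NV τ) (g : ℕ → Bool) :
    Beatable τ g := by
  classical
  -- the chain of stages
  let P : ℕ → List (Sym2 ℕ × Bool) → Prop := fun k H =>
    Cons τ H ∧ asked H = E (k + 2) ∧ LeafProp (Gr H)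
  have hstep : ∀ k H, P k H → ∃ H', H <+: H' ∧ P (k + 1) H' ∧ Ctl H g (k + 2) (Gr H') := by
    rintro k H ⟨h1, h2, h3⟩
    obtain ⟨H', a1, a2, a3, a4, a5⟩ := stage g hNV (n := k + 2) (by omega) h2 h1 h3
    exact ⟨H', a1, ⟨a2, a3, a4⟩, a5⟩
  choose! nxt hn1 hn2 hn3 using hstep
  let Hs : ℕ → List (Sym2 ℕ × Bool) := fun k => Nat.rec [] (fun k H => nxt k H) k
  have hHs0 : Hs 0 = [] := rfl
  have hHss : ∀ k, Hs (k + 1) = nxt k (Hs k) := fun k => rfl
  have hP : ∀ k, P k (Hs k) := by
    intro k
    induction k with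
    | zero =>
      rw [hHs0]
      refine ⟨Cons.nil, by rw [asked_nil, E_two], ?_⟩
      have : Gr [] = ⊥ := by
        unfold Gr; rw [grn_nil, fromEdgeSet_empty]
      rw [this]
      exact leafProp_bot
    | succ k ih => rw [hHss]; exact hn2 k _ ih
  have hpre : ∀ k, Hs k <+: Hs (k + 1) := fun k => by rw [hHss]; exact hn1 k _ (hP k)
  have hctl : ∀ k, Ctl (Hs k) g (k + 2) (Gr (Hs (k + 1))) := fun k => by
    rw [hHss]; exact hn3 k _ (hP k)
  have hmono : ∀ m n, m ≤ n → Hs m <+: Hs n := by
    intro m n hmn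
    induction hmn with
    | refl => exact List.prefix_rfl
    | step _ ih => exact ih.trans (hpre _)
  have hinf : (⋃ n, asked (Hs n)).Infinite := by
    have hsub : Set.range (fun k : ℕ => (s(0, k + 2) : Sym2 ℕ)) ⊆ ⋃ n, asked (Hs n) := by
      rintro _ ⟨k, rfl⟩
      rw [Set.mem_iUnion]
      refine ⟨k + 1, ?_⟩
      rw [(hP (k + 1)).2.1]
      apply mem_E (by omega) (by omega) (by omega)
      intro h
      rw [Sym2.eq_iff] at h
      omega
    refine Set.Infinite.mono hsub (Set.infinite_range_of_injective ?_)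
    intro a b hab
    have := mk_inj hab
    omega
  obtain ⟨e, c, h1, h2, h3, h4⟩ := exists_run_of_chain Hs (fun n => (hP n).1) hpre hinf
  have hwhite : whiteEdges e = {s(0, 1)} := by
    ext x
    constructor
    · rintro ⟨hx, hx'⟩
      by_contra hxf
      induction x with
      | _ a b =>
        have hab : a ≠ b := by simpa using hx
        have hmem : s(a, b) ∈ E ((a + b) + 2) := mem_E hab (by omega) (by omega) hxf
        obtain ⟨n, hn⟩ := (h3 _).2 ⟨a + b, by rw [(hP (a + b)).2.1]; exact hmem⟩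
        exact hx' n hn
    · rintro rfl
      refine ⟨not_isDiag_mk (by omega), fun n hn => ?_⟩
      obtain ⟨k, hk⟩ := (h3 _).1 ⟨n, hn⟩
      rw [(hP k).2.1] at hk
      exact not_mem_E _ hk
  set G := fromEdgeSet (greenEdges e c) with hG
  have hle : ∀ k, Gr (Hs k) ≤ G := by
    intro k
    apply fromEdgeSet_mono
    intro x hx
    exact (h4 x).2 ⟨k, hx⟩
  have hadj : ∀ k a b, a < k + 2 → b < k + 2 → G.Adj a b → (Gr (Hs k)).Adj a b := by
    intro k a b ha hb hab
    rw [hG, fromEdgeSet_adj] at hab
    obtain ⟨m, hm⟩ := (h4 _).1 hab.1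
    unfold Gr
    rw [fromEdgeSet_adj]
    refine ⟨?_, hab.2⟩
    rcases le_total m k with hmk | hmk
    · exact grn_mono (hmono _ _ hmk) hm
    · have hne : (s(a, b) : Sym2 ℕ) ≠ s(0, 1) := by
        intro h
        have := grn_subset_asked _ hm
        rw [h, (hP m).2.1] at this
        exact not_mem_E _ this
      have h5 : s(a, b) ∈ asked (Hs k) := by
        rw [(hP k).2.1]
        exact mem_E hab.2 ha hb hne
      obtain ⟨t, ht⟩ := h5
      have h6 : (s(a, b), t) ∈ Hs m := (hmono _ _ hmk).subset ht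
      have h7 := (hP m).1.color_unique _ _ _ h6 hm
      rw [h7] at ht
      exact ht
  -- the second coordinate of every pattern is `g`
  have hkey : ∀ r y, Match G r y → ∃ N, ∀ n ≥ N, y n = g n := by
    rintro r y ⟨N, hN⟩
    refine ⟨N, fun n hn => ?_⟩
    obtain ⟨⟨v, hv⟩, hall⟩ := hN n hn
    obtain ⟨-, hgood, hodd⟩ := hall v hv
    have hpos : 7 ≤ (comp G v).ncard := by unfold InLevel at hv; omega
    have hfin : (comp G v).Finite := Set.finite_of_ncard_pos (by omega)
    obtain ⟨m, hmK, hmax⟩ := Set.exists_max_image (comp G v) id hfin ⟨v, mem_comp_self _ _⟩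
    have hKm : comp G v = comp G m := comp_eq_of_reachable hmK
    have hK : ∀ x ∈ comp G m, x ≤ m := fun x hx => hmax x (by rw [hKm]; exact hx)
    have hm6 : 6 ≤ m := by
      have hsub : comp G m ⊆ Set.Iic m := hK
      have := Set.ncard_le_ncard hsub (Set.finite_Iic m)
      rw [← hKm] at this
      have h8 : (Set.Iic m).ncard = m + 1 := by
        rw [← Finset.coe_Iic, Set.ncard_coe_finset, Nat.card_Iic]
      omega
    obtain ⟨k, rfl⟩ : ∃ k, m = k + 2 := ⟨m - 2, by omega⟩
    obtain ⟨hcomp, hleaves⟩ := compare (hle (k + 1))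
      (fun a b ha hb => hadj (k + 1) a b (by omega) (by omega)) hK
    have hleq : leaves G v = leaves G (k + 2) := by
      ext w
      constructor
      · rintro ⟨h5, h6⟩
        exact ⟨(Reachable.symm hmK).trans h5, h6⟩
      · rintro ⟨h5, h6⟩
        exact ⟨Reachable.trans hmK h5, h6⟩
    -- small components are impossible
    have hno : ¬ ∀ a, (Gr (Hs (k + 1))).Reachable (k + 2) a → a ≠ k + 2 →
        (comp (Gr (Hs k)) a).ncard ≤ 2 := by
      intro hsmall
      have main : ∀ a b d, G.Reachable v b → G.Adj a b → G.Adj b d → a ≠ d →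
          a ≠ k + 2 → b ≠ k + 2 → d ≠ k + 2 → False := by
        intro a b d hb hab hbd had ha hb' hd
        have hbK : b ∈ comp G (k + 2) := by rw [← hKm]; exact hb
        have haK : a ∈ comp G (k + 2) := Reachable.trans hbK hab.symm.reachable
        have hdK : d ∈ comp G (k + 2) := Reachable.trans hbK hbd.reachable
        have h5 := hK a haK
        have h6 := hK b hbK
        have h7 := hK d hdK
        have hab' := hadj k a b (by omega) (by omega) hab
        have hbd' := hadj k b d (by omega) (by omega) hbd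
        have hfin' : (comp (Gr (Hs k)) b).Finite := finite_comp₀ (hP k).2.1 (by omega)
        have h8 := three_path hab' hbd' had hfin'
        have h9 : b ∈ comp (Gr (Hs (k + 1))) (k + 2) := by rw [hcomp]; exact hbK
        have := hsmall b h9 hb'
        omega
      obtain ⟨a, b, d, a', b', d', g1, g2, g3, g4, g5, g6, g7, g8, g9⟩ := hgood
      by_cases hin : k + 2 ∈ ({a, b, d} : Set ℕ)
      · have hnin := g9 _ hin
        simp only [Set.mem_insert_iff, Set.mem_singleton_iff, not_or] at hnin
        exact main a' b' d' g2 g5 g6 g8 (Ne.symm hnin.1) (Ne.symm hnin.2.1) (Ne.symm hnin.2.2)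
      · simp only [Set.mem_insert_iff, Set.mem_singleton_iff, not_or] at hin
        exact main a b d g1 g3 g4 g7 (Ne.symm hin.1) (Ne.symm hin.2.1) (Ne.symm hin.2.2)
    rcases hctl k with h | h
    · exact absurd h hno
    · rw [hleaves, hcomp, ← hleq, ← hKm, hv.level, hodd] at h
      cases hy : y n <;> cases hg : g n <;> simp [hy, hg] at h ⊢
  by_cases hex : ∃ r y, Match G r y
  · obtain ⟨ρ, y₀, hρ⟩ := hex
    refine ⟨ρ, e, c, h1, h2, fun X hX => ⟨by rw [hwhite]; exact Set.singleton_nonempty _, ?_⟩⟩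
    right
    rw [Set.disjoint_left]
    rintro K hK ⟨hodds, r, y, hm, hcls⟩
    have hmG : Match G r y := by
      rcases completions_eq hwhite hK with rfl | rfl
      · exact hm
      · exact (match_sup_edge (by omega) (hodds 0).1 r y).1 hm
    apply hX
    obtain ⟨N, hN⟩ := hkey r y hmG
    obtain ⟨N', hN'⟩ := Quotient.exact (hmG.cls_eq hρ)
    have : cls ρ g = cls r y := by
      apply Quotient.sound
      refine ⟨max N N', fun n hn => ⟨?_, ?_⟩⟩
      · exact (hN' n (le_trans (le_max_right _ _) hn)).1.symm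
      · exact (hN n (le_trans (le_max_left _ _) hn)).symm
    rw [this]
    exact hcls
  · refine ⟨g, e, c, h1, h2, fun X _ => ⟨by rw [hwhite]; exact Set.singleton_nonempty _, ?_⟩⟩
    right
    rw [Set.disjoint_left]
    rintro K hK ⟨hodds, r, y, hm, hcls⟩
    apply hex
    refine ⟨r, y, ?_⟩
    rcases completions_eq hwhite hK with rfl | rfl
    · exact hm
    · exact (match_sup_edge (by omega) (hodds 0).1 r y).1 hm

theorem beatable (τ : List (Sym2 ℕ × Bool) → Sym2 ℕ → Bool) (g : ℕ → Bool) : Beatable τ g := by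
  by_cases hNV : NV τ
  · exact beatable_of_NV hNV g
  · unfold NV at hNV
    push Not at hNV
    obtain ⟨H, hH, x, y, hxy, hr, hna⟩ := hNV
    exact beatable_of_violation g hH hxy hr hna

end Pool.Agent.Lib.MP_5af839_lc
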