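import Mathlib
import Pool.Agent.Lib.MP_5af839_lc.Beatable

set_option autoImplicit false

namespace Pool.Agent.Lib.MP_5af839_lc

open SimpleGraph

/-- blocks of prescribed sizes, each with two halves of size at least three -/
theorem exists_blocks (r : ℕ → Bool) : ∃ (b : ℕ → ℕ) (h : ℕ → Bool),
    (∀ j, {v | b v = j}.Finite ∧ {v | b v = j}.ncard = 4 * j + 7 + 2 * (r j).toNat) ∧
    (∀ j t, 2 < {v | b v = j ∧ h v = t}.ncard) := by
  classical
  let k : ℕ → ℕ := fun j => 4 * j + 7 + 2 * (r j).toNat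
  have hk : ∀ j, 7 ≤ k j := fun j => by simp only [k]; omega
  have : Infinite (Σ j, Fin (k j)) := by
    apply Infinite.of_injective (fun j : ℕ => (⟨j, ⟨0, by have := hk j; omega⟩⟩ : Σ j, Fin (k j)))
    intro i j hij
    exact congrArg Sigma.fst hij
  obtain ⟨φ⟩ : Nonempty (ℕ ≃ Σ j, Fin (k j)) := nonempty_equiv_of_countable
  have hset : ∀ j, {v | (φ v).1 = j} = φ.symm '' (Set.range (fun i : Fin (k j) => ⟨j, i⟩)) := by
    intro j
    ext v
    constructor
    · intro hv
      have hv' : (φ v).1 = j := hv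
      refine ⟨φ v, ?_, by simp⟩
      subst hv'
      exact ⟨(φ v).2, rfl⟩
    · rintro ⟨_, ⟨i, rfl⟩, rfl⟩
      simp
  have hinj : ∀ j, Function.Injective (fun i : Fin (k j) => (⟨j, i⟩ : Σ j, Fin (k j))) := by
    intro j i i' h
    simpa using h
  have hfin : ∀ j, {v | (φ v).1 = j}.Finite := by
    intro j
    rw [hset]
    exact (Set.finite_range _).image _
  refine ⟨fun v => (φ v).1, fun v => decide ((φ v).2.val < 3), ?_, ?_⟩
  · intro j
    refine ⟨hfin j, ?_⟩
    show {v | (φ v).1 = j}.ncard = _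
    rw [hset, Set.ncard_image_of_injective _ φ.symm.injective, ← Set.image_univ,
      Set.ncard_image_of_injective _ (hinj j), Set.ncard_univ, Nat.card_fin]
  · intro j t
    have hf : {v | (φ v).1 = j ∧ decide ((φ v).2.val < 3) = t}.Finite :=
      (hfin j).subset (fun v hv => hv.1)
    rw [Set.two_lt_ncard_iff hf]
    have hj := hk j
    have hne : ∀ (a b : Fin (k j)), a ≠ b → φ.symm ⟨j, a⟩ ≠ φ.symm ⟨j, b⟩ := by
      intro a b hab h
      exact hab (hinj j (φ.symm.injective h))
    have hfst : ∀ a : Fin (k j), (φ (φ.symm ⟨j, a⟩)).1 = j := fun a =>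
      congrArg (fun s : Σ j, Fin (k j) => s.1) (φ.apply_symm_apply _)
    have hval : ∀ a : Fin (k j), (φ (φ.symm ⟨j, a⟩)).2.val = a.val := fun a =>
      congrArg (fun s : Σ j, Fin (k j) => s.2.val) (φ.apply_symm_apply _)
    cases t
    · refine ⟨φ.symm ⟨j, ⟨3, by omega⟩⟩, φ.symm ⟨j, ⟨4, by omega⟩⟩, φ.symm ⟨j, ⟨5, by omega⟩⟩,
        ⟨hfst _, ?_⟩, ⟨hfst _, ?_⟩, ⟨hfst _, ?_⟩, hne _ _ ?_, hne _ _ ?_, hne _ _ ?_⟩
      · rw [hval]; rfl
      · rw [hval]; rfl
      · rw [hval]; rfl
      all_goals simp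
    · refine ⟨φ.symm ⟨j, ⟨0, by omega⟩⟩, φ.symm ⟨j, ⟨1, by omega⟩⟩, φ.symm ⟨j, ⟨2, by omega⟩⟩,
        ⟨hfst _, ?_⟩, ⟨hfst _, ?_⟩, ⟨hfst _, ?_⟩, hne _ _ ?_, hne _ _ ?_, hne _ _ ?_⟩
      · rw [hval]; rfl
      · rw [hval]; rfl
      · rw [hval]; rfl
      all_goals simp

section Blocks

variable (b : ℕ → ℕ) (h : ℕ → Bool)

/-- the graph of all pairs in the same half of the same block -/
def SH : SimpleGraph ℕ where
  Adj x y := x ≠ y ∧ b x = b y ∧ h x = h y
  symm := ⟨fun _ _ hxy => ⟨hxy.1.symm, hxy.2.1.symm, hxy.2.2.symm⟩⟩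
  loopless := ⟨fun _ hx => hx.1 rfl⟩

/-- green edges inside halves -/
def Gh (H : List (Sym2 ℕ × Bool)) : SimpleGraph ℕ := Gr H ⊓ SH b h

/-- pairs inside halves that are not red -/
def Nh (H : List (Sym2 ℕ × Bool)) : SimpleGraph ℕ where
  Adj x y := (SH b h).Adj x y ∧ (s(x, y), false) ∉ H
  symm := ⟨fun x y hxy => ⟨hxy.1.symm, by rw [Sym2.eq_swap]; exact hxy.2⟩⟩
  loopless := ⟨fun x hx => hx.1.1 rfl⟩

/-- Hider's rule: colour the edge green iff it lies in a block and is the last non-red edge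
between the two parts that it joins. -/
def Rule (H : List (Sym2 ℕ × Bool)) (f : Sym2 ℕ) : Prop :=
  ∃ u v, f = s(u, v) ∧ b u = b v ∧
    ((h u = h v ∧ ∀ x y, (Gh b h H).Reachable u x → (Gh b h H).Reachable v y → s(x, y) ≠ f →
        (s(x, y), false) ∈ H) ∨
      (h u ≠ h v ∧ ∀ x y, b x = b u → b y = b u → h x ≠ h y → s(x, y) ≠ f →
        (s(x, y), false) ∈ H))

open Classical in
/-- Hider's block strategy -/
noncomputable def blockStrategy (H : List (Sym2 ℕ × Bool)) (f : Sym2 ℕ) : Bool :=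
  decide (Rule b h H f)

/-- the invariants of the block strategy -/
structure Inv (H : List (Sym2 ℕ × Bool)) : Prop where
  i0 : ∀ x y, s(x, y) ∈ grn H → b x = b y
  i1 : ∀ x y, x ≠ y → (Gh b h H).Reachable x y → s(x, y) ∈ asked H
  i2 : ∀ x y, s(x, y) ∈ grn H → h x ≠ h y → ∀ x' y', b x' = b x → b y' = b x → h x' ≠ h y' →
    s(x', y') ≠ s(x, y) → (s(x', y'), false) ∈ H
  i3 : ∀ x y, b x = b y → h x = h y → (Nh b h H).Reachable x y
  i4 : ∀ j, ∃ x y, b x = j ∧ b y = j ∧ h x ≠ h y ∧ (s(x, y), false) ∉ H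

variable {b h}

theorem Gh_reach {H : List (Sym2 ℕ × Bool)} {x y : ℕ} (hxy : (Gh b h H).Reachable x y) :
    b x = b y ∧ h x = h y := by
  rw [reachable_eq_reflTransGen] at hxy
  induction hxy with
  | refl => exact ⟨rfl, rfl⟩
  | @tail w v _ hwv ih => exact ⟨ih.1.trans hwv.2.2.1, ih.2.trans hwv.2.2.2⟩

theorem Nh_reach {H : List (Sym2 ℕ × Bool)} {x y : ℕ} (hxy : (Nh b h H).Reachable x y) :
    b x = b y ∧ h x = h y := by
  rw [reachable_eq_reflTransGen] at hxy
  induction hxy with
  | refl => exact ⟨rfl, rfl⟩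
  | @tail w v _ hwv ih => exact ⟨ih.1.trans hwv.1.2.1, ih.2.trans hwv.1.2.2⟩

theorem mem_snoc {H : List (Sym2 ℕ × Bool)} {f g : Sym2 ℕ} {t t' : Bool} :
    (g, t') ∈ H ++ [(f, t)] ↔ (g, t') ∈ H ∨ (g = f ∧ t' = t) := by
  rw [List.mem_append, List.mem_singleton, Prod.mk.injEq]

theorem inv_nil (hhalf : ∀ j t, 2 < {v | b v = j ∧ h v = t}.ncard) : Inv b h [] := by
  have hne : ∀ j t, ∃ v, b v = j ∧ h v = t := by
    intro j t
    have h1 := hhalf j t
    have : {v | b v = j ∧ h v = t}.Nonempty := by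
      apply Set.nonempty_of_ncard_ne_zero
      omega
    exact this
  refine ⟨?_, ?_, ?_, ?_, ?_⟩
  · intro x y hxy; simp [grn] at hxy
  · intro x y hne' hxy
    exfalso
    rw [reachable_eq_reflTransGen] at hxy
    rcases Relation.ReflTransGen.cases_head hxy with h1 | ⟨w, hw, -⟩
    · exact hne' h1
    · have := hw.1
      unfold Gr at this
      rw [fromEdgeSet_adj] at this
      simp [grn] at this
  · intro x y hxy; simp [grn] at hxy
  · intro x y h1 h2
    by_cases hxy : x = y
    · rw [hxy]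
    · apply Adj.reachable
      exact ⟨⟨hxy, h1, h2⟩, by simp⟩
  · intro j
    obtain ⟨x, hx1, hx2⟩ := hne j true
    obtain ⟨y, hy1, hy2⟩ := hne j false
    exact ⟨x, y, hx1, hy1, by rw [hx2, hy2]; simp, by simp⟩

theorem reach_of_adj_reach {G G' : SimpleGraph ℕ} (h : ∀ x y, G.Adj x y → G'.Reachable x y)
    {x y : ℕ} (hxy : G.Reachable x y) : G'.Reachable x y := by
  rw [reachable_eq_reflTransGen] at hxy
  induction hxy with
  | refl => exact Reachable.refl _
  | @tail w v _ hwv ih => exact ih.trans (h w v hwv)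

theorem inv_snoc {H : List (Sym2 ℕ × Bool)} {f : Sym2 ℕ} (hI : Inv b h H)
    (hC : Cons (blockStrategy b h) H) (hf : ¬ f.IsDiag) (hfa : f ∉ asked H) :
    Inv b h (H ++ [(f, blockStrategy b h H f)]) := by
  classical
  by_cases hR : Rule b h H f
  · -- green
    have ht : blockStrategy b h H f = true := by
      unfold blockStrategy; simpa using hR
    rw [ht]
    have hfalse : ∀ g : Sym2 ℕ, (g, false) ∈ H ++ [(f, true)] ↔ (g, false) ∈ H := by
      intro g
      rw [mem_snoc]
      simp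
    have hgrn : ∀ g : Sym2 ℕ, g ∈ grn (H ++ [(f, true)]) ↔ g ∈ grn H ∨ g = f := by
      intro g
      show (g, true) ∈ H ++ [(f, true)] ↔ _
      rw [mem_snoc]
      simp [grn]
    have hNh : Nh b h (H ++ [(f, true)]) = Nh b h H := by
      ext x y
      simp only [Nh, hfalse]
    have hask : asked (H ++ [(f, true)]) = asked H ∪ {f} := by
      rw [asked_append, asked_singleton]
    obtain ⟨u, v, rfl, hb, hcase⟩ := hR
    have huv : u ≠ v := by simpa using hf
    refine ⟨?_, ?_, ?_, ?_, ?_⟩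
    · intro x y hxy
      rcases (hgrn _).1 hxy with h1 | h1
      · exact hI.i0 x y h1
      · rw [Sym2.eq_iff] at h1
        rcases h1 with ⟨rfl, rfl⟩ | ⟨rfl, rfl⟩
        · exact hb
        · exact hb.symm
    · intro x y hxy hr
      rw [hask]
      rcases hcase with ⟨hh, hall⟩ | ⟨hh, hall⟩
      · have hG : Gh b h (H ++ [(s(u, v), true)]) = Gh b h H ⊔ edge u v := by
          ext x y
          simp only [Gh, Gr, inf_adj, sup_adj, edge_adj, fromEdgeSet_adj, hgrn, SH]
          constructor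
          · rintro ⟨⟨h1 | h1, h2⟩, h3⟩
            · exact Or.inl ⟨⟨h1, h2⟩, h3⟩
            · rw [Sym2.eq_iff] at h1
              exact Or.inr ⟨h1, h2⟩
          · rintro (⟨⟨h1, h2⟩, h3⟩ | ⟨h1, h2⟩)
            · exact ⟨⟨Or.inl h1, h2⟩, h3⟩
            · refine ⟨⟨Or.inr (Sym2.eq_iff.2 h1), h2⟩, h2, ?_⟩
              rcases h1 with ⟨rfl, rfl⟩ | ⟨rfl, rfl⟩
              · exact ⟨hb, hh⟩
              · exact ⟨hb.symm, hh.symm⟩
        rw [hG, reachable_sup_edge_iff x y huv] at hr
        rcases hr with h1 | ⟨h1, h2⟩ | ⟨h1, h2⟩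
        · exact Or.inl (hI.i1 x y hxy h1)
        · by_cases hs : (s(x, y) : Sym2 ℕ) = s(u, v)
          · right; exact hs
          · left; exact ⟨false, hall x y h1.symm h2 hs⟩
        · by_cases hs : (s(y, x) : Sym2 ℕ) = s(u, v)
          · right
            rw [Sym2.eq_swap] at hs
            exact hs
          · left
            rw [Sym2.eq_swap]
            exact ⟨false, hall y x h2 h1.symm hs⟩
      · have hG : Gh b h (H ++ [(s(u, v), true)]) = Gh b h H := by
          ext x y
          simp only [Gh, Gr, inf_adj, fromEdgeSet_adj, hgrn, SH]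
          constructor
          · rintro ⟨⟨h1 | h1, h2⟩, h3⟩
            · exact ⟨⟨h1, h2⟩, h3⟩
            · exfalso
              rw [Sym2.eq_iff] at h1
              rcases h1 with ⟨rfl, rfl⟩ | ⟨rfl, rfl⟩
              · exact hh h3.2.2
              · exact hh h3.2.2.symm
          · rintro ⟨⟨h1, h2⟩, h3⟩
            exact ⟨⟨Or.inl h1, h2⟩, h3⟩
        rw [hG] at hr
        exact Or.inl (hI.i1 x y hxy hr)
    · intro x y hxy hhxy x' y' h1 h2 h3 h4
      rw [hfalse]
      rcases (hgrn _).1 hxy with h5 | h5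
      · exact hI.i2 x y h5 hhxy x' y' h1 h2 h3 h4
      · rcases hcase with ⟨hh, hall⟩ | ⟨hh, hall⟩
        · exfalso
          rw [Sym2.eq_iff] at h5
          rcases h5 with ⟨rfl, rfl⟩ | ⟨rfl, rfl⟩
          · exact hhxy hh
          · exact hhxy hh.symm
        · have hbx : b x = b u := by
            rw [Sym2.eq_iff] at h5
            rcases h5 with ⟨rfl, rfl⟩ | ⟨rfl, rfl⟩
            · rfl
            · exact hb.symm
          exact hall x' y' (h1.trans hbx) (h2.trans hbx) h3 (by rw [← h5]; exact h4)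
    · rw [hNh]; exact hI.i3
    · intro j
      obtain ⟨x, y, h1, h2, h3, h4⟩ := hI.i4 j
      exact ⟨x, y, h1, h2, h3, by rw [hfalse]; exact h4⟩
  · -- red
    have ht : blockStrategy b h H f = false := by
      unfold blockStrategy; simpa using hR
    rw [ht]
    have hgrn : grn (H ++ [(f, false)]) = grn H := by
      ext g
      show (g, true) ∈ H ++ [(f, false)] ↔ _
      rw [mem_snoc]
      simp [grn]
    have hG : Gh b h (H ++ [(f, false)]) = Gh b h H := by
      unfold Gh Gr; rw [hgrn]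
    have hfalse : ∀ g : Sym2 ℕ, (g, false) ∈ H ++ [(f, false)] ↔ (g, false) ∈ H ∨ g = f := by
      intro g
      rw [mem_snoc]
      simp
    refine ⟨?_, ?_, ?_, ?_, ?_⟩
    · rw [hgrn]; exact hI.i0
    · rw [hG, asked_append]
      intro x y hxy hr
      exact Or.inl (hI.i1 x y hxy hr)
    · rw [hgrn]
      intro x y hxy hhxy x' y' h1 h2 h3 h4
      rw [hfalse]
      exact Or.inl (hI.i2 x y hxy hhxy x' y' h1 h2 h3 h4)
    · -- connectivity of the halves
      have hle : Gh b h H ≤ Nh b h (H ++ [(f, false)]) := by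
        intro x y hxy
        refine ⟨hxy.2, ?_⟩
        rw [hfalse]
        have hg : s(x, y) ∈ grn H := by
          have := hxy.1
          unfold Gr at this
          rw [fromEdgeSet_adj] at this
          exact this.1
        rintro (h1 | h1)
        · have := hC.color_unique _ _ _ h1 hg
          simp at this
        · rw [← h1] at hfa
          exact hfa (grn_subset_asked _ hg)
      have hadj : ∀ x y, (Nh b h H).Adj x y → (Nh b h (H ++ [(f, false)])).Reachable x y := by
        intro x y hxy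
        by_cases hs : (s(x, y) : Sym2 ℕ) = f
        · -- the rule fails
          have hnot : ∃ x' y', (Gh b h H).Reachable x x' ∧ (Gh b h H).Reachable y y' ∧
              s(x', y') ≠ f ∧ (s(x', y'), false) ∉ H := by
            by_contra hcon
            push Not at hcon
            apply hR
            exact ⟨x, y, hs.symm, hxy.1.2.1, Or.inl ⟨hxy.1.2.2, fun x' y' h1 h2 h3 =>
              hcon x' y' h1 h2 h3⟩⟩
          obtain ⟨x', y', h1, h2, h3, h4⟩ := hnot
          have hne : x' ≠ y' := by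
            rintro rfl
            apply hfa
            rw [← hs]
            exact hI.i1 x y hxy.1.1 (h1.trans h2.symm)
          have g1 := Gh_reach h1
          have g2 := Gh_reach h2
          have hadj' : (Nh b h (H ++ [(f, false)])).Adj x' y' := by
            refine ⟨⟨hne, ?_, ?_⟩, ?_⟩
            · rw [← g1.1, ← g2.1]; exact hxy.1.2.1
            · rw [← g1.2, ← g2.2]; exact hxy.1.2.2
            · rw [hfalse]
              rintro (h5 | h5)
              · exact h4 h5
              · exact h3 h5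
          exact ((h1.mono hle).trans hadj'.reachable).trans (h2.mono hle).symm
        · apply Adj.reachable
          refine ⟨hxy.1, ?_⟩
          rw [hfalse]
          rintro (h1 | h1)
          · exact hxy.2 h1
          · exact hs h1
      intro x y h1 h2
      exact reach_of_adj_reach hadj (hI.i3 x y h1 h2)
    · intro j
      obtain ⟨x, y, h1, h2, h3, h4⟩ := hI.i4 j
      by_cases hs : (s(x, y) : Sym2 ℕ) = f
      · have hnot : ∃ x' y', b x' = b x ∧ b y' = b x ∧ h x' ≠ h y' ∧ s(x', y') ≠ f ∧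
            (s(x', y'), false) ∉ H := by
          by_contra hcon
          push Not at hcon
          apply hR
          exact ⟨x, y, hs.symm, h1.trans h2.symm, Or.inr ⟨h3, fun x' y' a1 a2 a3 a4 =>
            hcon x' y' a1 a2 a3 a4⟩⟩
        obtain ⟨x', y', a1, a2, a3, a4, a5⟩ := hnot
        refine ⟨x', y', a1.trans h1, a2.trans h1, a3, ?_⟩
        rw [hfalse]
        rintro (h5 | h5)
        · exact a5 h5
        · exact a4 h5
      · refine ⟨x, y, h1, h2, h3, ?_⟩
        rw [hfalse]
        rintro (h5 | h5)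
        · exact h4 h5
        · exact hs h5

theorem inv_of_cons (hhalf : ∀ j t, 2 < {v | b v = j ∧ h v = t}.ncard)
    {H : List (Sym2 ℕ × Bool)} (hC : Cons (blockStrategy b h) H) : Inv b h H := by
  induction hC with
  | nil => exact inv_nil hhalf
  | @snoc H x hC hx hx' ih => exact inv_snoc ih hC hx hx'



theorem adj_Gr {H : List (Sym2 ℕ × Bool)} {x y : ℕ} :
    (Gr H).Adj x y ↔ s(x, y) ∈ grn H ∧ x ≠ y := by
  unfold Gr; rw [fromEdgeSet_adj]

/-- green connections pass at most once from one half to the other -/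
theorem reach_split {H : List (Sym2 ℕ × Bool)} (hI : Inv b h H)
    (hC : Cons (blockStrategy b h) H) {u v : ℕ} (huv : (Gr H).Reachable u v) :
    (Gh b h H).Reachable u v ∨ ∃ x y, s(x, y) ∈ grn H ∧ h x ≠ h y ∧
      (Gh b h H).Reachable u x ∧ (Gh b h H).Reachable y v := by
  rw [reachable_eq_reflTransGen] at huv
  induction huv with
  | refl => exact Or.inl (Reachable.refl _)
  | @tail w v _ hwv ih =>
    obtain ⟨hg, hne⟩ := adj_Gr.1 hwv
    have hb := hI.i0 w v hg
    by_cases hh : h w = h v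
    · have hadj : (Gh b h H).Adj w v := ⟨hwv, hne, hb, hh⟩
      rcases ih with ih | ⟨x, y, h1, h2, h3, h4⟩
      · exact Or.inl (ih.trans hadj.reachable)
      · exact Or.inr ⟨x, y, h1, h2, h3, h4.trans hadj.reachable⟩
    · rcases ih with ih | ⟨x, y, h1, h2, h3, h4⟩
      · exact Or.inr ⟨w, v, hg, hh, ih, Reachable.refl _⟩
      · by_cases hs : (s(w, v) : Sym2 ℕ) = s(x, y)
        · rw [Sym2.eq_iff] at hs
          rcases hs with ⟨rfl, rfl⟩ | ⟨rfl, rfl⟩
          · exact absurd (Gh_reach h4).2.symm hh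
          · exact Or.inl h3
        · exfalso
          have hbx := hI.i0 x y h1
          have hbw := (Gh_reach h4).1
          have h5 := hI.i2 x y h1 h2 w v (hbw.symm.trans hbx.symm)
            (hb.symm.trans (hbw.symm.trans hbx.symm)) hh hs
          have := hC.color_unique _ _ _ h5 hg
          simp at this

/-- white edges never join vertices of one green component -/
theorem asked_of_reachable {H : List (Sym2 ℕ × Bool)} (hI : Inv b h H)
    (hC : Cons (blockStrategy b h) H) {u v : ℕ} (hne : u ≠ v) (huv : (Gr H).Reachable u v) :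
    s(u, v) ∈ asked H := by
  rcases reach_split hI hC huv with h1 | ⟨x, y, h1, h2, h3, h4⟩
  · exact hI.i1 u v hne h1
  · by_cases hs : (s(u, v) : Sym2 ℕ) = s(x, y)
    · rw [hs]; exact grn_subset_asked _ h1
    · refine ⟨false, hI.i2 x y h1 h2 u v ?_ ?_ ?_ hs⟩
      · exact (Gh_reach h3).1
      · rw [← (Gh_reach h4).1]; exact (hI.i0 x y h1).symm
      · rw [(Gh_reach h3).2, ← (Gh_reach h4).2]; exact h2

theorem green_block {H : List (Sym2 ℕ × Bool)} (hI : Inv b h H) {u v : ℕ}
    (huv : (Gr H).Reachable u v) : b u = b v := by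
  rw [reachable_eq_reflTransGen] at huv
  induction huv with
  | refl => rfl
  | @tail w v _ hwv ih => exact ih.trans (hI.i0 w v (adj_Gr.1 hwv).1)

end Blocks

theorem history_succ (e : ℕ → Sym2 ℕ) (c : ℕ → Bool) (n : ℕ) :
    history e c (n + 1) = history e c n ++ [(e n, c n)] := by
  simp [history, List.range_succ]

theorem mem_history {e : ℕ → Sym2 ℕ} {c : ℕ → Bool} {n : ℕ} {x : Sym2 ℕ} {t : Bool} :
    (x, t) ∈ history e c n ↔ ∃ i < n, e i = x ∧ c i = t := by
  simp [history]

theorem cons_history {τ : List (Sym2 ℕ × Bool) → Sym2 ℕ → Bool} {e : ℕ → Sym2 ℕ} {c : ℕ → Bool}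
    (hl : LegalRun e) (hc : ∀ n, c n = τ (history e c n) (e n)) (n : ℕ) :
    Cons τ (history e c n) := by
  induction n with
  | zero => exact Cons.nil
  | succ n ih =>
    rw [history_succ, hc n]
    refine Cons.snoc ih (hl.1 n) ?_
    rintro ⟨t, ht⟩
    obtain ⟨i, hi, hi', -⟩ := mem_history.1 ht
    have := hl.2 hi'
    omega

theorem reach_limit {e : ℕ → Sym2 ℕ} {c : ℕ → Bool} {u v : ℕ}
    (huv : (fromEdgeSet (greenEdges e c)).Reachable u v) :
    ∃ n, (Gr (history e c n)).Reachable u v := by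
  have hmono : ∀ m n, m ≤ n → Gr (history e c m) ≤ Gr (history e c n) := by
    intro m n hmn
    apply fromEdgeSet_mono
    intro x hx
    obtain ⟨i, hi, hi'⟩ := mem_history.1 (show (x, true) ∈ history e c m from hx)
    exact mem_history.2 ⟨i, by omega, hi'⟩
  rw [reachable_eq_reflTransGen] at huv
  induction huv with
  | refl => exact ⟨0, Reachable.refl _⟩
  | @tail w v _ hwv ih =>
    obtain ⟨n, hn⟩ := ih
    rw [fromEdgeSet_adj] at hwv
    obtain ⟨⟨i, hi, hi'⟩, hne⟩ := hwv
    refine ⟨max n (i + 1), ?_⟩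
    refine (hn.mono (hmono _ _ (le_max_left _ _))).trans ?_
    apply Adj.reachable
    rw [adj_Gr]
    refine ⟨?_, hne⟩
    exact mem_history.2 ⟨i, lt_of_lt_of_le (Nat.lt_succ_self i) (le_max_right _ _), hi, hi'⟩

end Pool.Agent.Lib.MP_5af839_lc
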