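import Mathlib
import Pool.Agent.Lib.MP_5af839_lc.HiderPlay

set_option autoImplicit false

namespace Pool.Agent.Lib.MP_5af839_lc

open SimpleGraph

/-- For all strategies of the two players there is a run in which both follow their strategy. -/
theorem exists_run (σ : List (Sym2 ℕ × Bool) → Sym2 ℕ)
    (τ : List (Sym2 ℕ × Bool) → Sym2 ℕ → Bool) :
    ∃ (e : ℕ → Sym2 ℕ) (c : ℕ → Bool), (∀ n, e n = σ (history e c n)) ∧
      ∀ n, c n = τ (history e c n) (e n) := by
  let Hs : ℕ → List (Sym2 ℕ × Bool) := fun n => Nat.rec [] (fun _ H => H ++ [(σ H, τ H (σ H))]) n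
  have hHs0 : Hs 0 = [] := rfl
  have hHss : ∀ n, Hs (n + 1) = Hs n ++ [(σ (Hs n), τ (Hs n) (σ (Hs n)))] := fun n => rfl
  have key : ∀ n, history (fun n => σ (Hs n)) (fun n => τ (Hs n) (σ (Hs n))) n = Hs n := by
    intro n
    induction n with
    | zero => rfl
    | succ n ih => rw [history_succ, ih, hHss]
  refine ⟨fun n => σ (Hs n), fun n => τ (Hs n) (σ (Hs n)), ?_, ?_⟩
  · intro n; rw [key]
  · intro n; rw [key]

/-- The outcome of the block strategy. -/
theorem block_outcome {b : ℕ → ℕ} {h : ℕ → Bool} {r : ℕ → Bool}
    (hblock : ∀ j, {v | b v = j}.Finite ∧ {v | b v = j}.ncard = 4 * j + 7 + 2 * (r j).toNat)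
    (hhalf : ∀ j t, 2 < {v | b v = j ∧ h v = t}.ncard)
    {e : ℕ → Sym2 ℕ} {c : ℕ → Bool} (hl : LegalRun e)
    (hc : ∀ n, c n = blockStrategy b h (history e c n) (e n)) (hw : (whiteEdges e).Nonempty) :
    (∃ G ∈ completions e c, Odds G ∧ ∃ y, Match G r y) ∧ ∃ G ∈ completions e c, ¬ Odds G := by
  classical
  have hcons := cons_history hl hc
  have hinv : ∀ n, Inv b h (history e c n) := fun n => inv_of_cons hhalf (hcons n)
  have hgreen : ∀ x y, s(x, y) ∈ greenEdges e c → b x = b y := by
    rintro x y ⟨n, hn, hn'⟩
    apply (hinv (n + 1)).i0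
    exact mem_history.2 ⟨n, Nat.lt_succ_self n, hn, hn'⟩
  constructor
  · -- the completion whose components are the blocks
    let G : SimpleGraph ℕ :=
      { Adj := fun x y => x ≠ y ∧ b x = b y ∧ ∀ n, ¬ (e n = s(x, y) ∧ c n = false)
        symm := ⟨fun x y hxy => ⟨hxy.1.symm, hxy.2.1.symm, by rw [Sym2.eq_swap]; exact hxy.2.2⟩⟩
        loopless := ⟨fun x hx => hx.1 rfl⟩ }
    have hGb : ∀ x y, G.Reachable x y → b x = b y := by
      intro x y hxy
      rw [reachable_eq_reflTransGen] at hxy
      induction hxy with
      | refl => rfl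
      | @tail w v _ hwv ih => exact ih.trans hwv.2.1
    -- a late stage for a given block
    have hlate : ∀ j, ∃ n, ∀ x y, b x = j → b y = j → (s(x, y), false) ∉ history e c n →
        ∀ m, ¬ (e m = s(x, y) ∧ c m = false) := by
      intro j
      have hfin : {m | ∃ x y, b x = j ∧ b y = j ∧ e m = s(x, y)}.Finite := by
        have hB : ((fun p : ℕ × ℕ => (s(p.1, p.2) : Sym2 ℕ)) ''
            ({v | b v = j} ×ˢ {v | b v = j})).Finite :=
          ((hblock j).1.prod (hblock j).1).image _
        refine (hB.preimage (hl.2.injOn)).subset ?_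
        rintro m ⟨x, y, hx, hy, hm⟩
        exact ⟨(x, y), ⟨hx, hy⟩, hm.symm⟩
      obtain ⟨N, hN⟩ := hfin.bddAbove
      refine ⟨N + 1, ?_⟩
      rintro x y hx hy hnot m ⟨hm, hm'⟩
      apply hnot
      have : m ≤ N := hN ⟨x, y, hx, hy, hm⟩
      exact mem_history.2 ⟨m, by omega, hm, hm'⟩
    -- halves are connected
    have hhalfconn : ∀ x y, b x = b y → h x = h y → (G ⊓ SH b h).Reachable x y := by
      intro x y hb hh
      obtain ⟨n, hn⟩ := hlate (b x)
      have h1 := (hinv n).i3 x y hb hh
      rw [reachable_eq_reflTransGen] at h1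
      induction h1 with
      | refl => exact Reachable.refl _
      | @tail w v hxw hwv ih =>
        have hxw' : (Nh b h (history e c n)).Reachable x w := by
          rw [reachable_eq_reflTransGen]; exact hxw
        have h2 := Nh_reach hxw'
        refine (ih h2.1 h2.2).trans ?_
        apply Adj.reachable
        refine ⟨⟨hwv.1.1, hwv.1.2.1, ?_⟩, hwv.1⟩
        exact hn w v h2.1.symm (hwv.1.2.1.symm.trans h2.1.symm) hwv.2
    have hconn : ∀ x y, b x = b y → G.Reachable x y := by
      intro x y hb
      by_cases hh : h x = h y
      · exact (hhalfconn x y hb hh).mono inf_le_left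
      · obtain ⟨n, hn⟩ := hlate (b x)
        obtain ⟨u, v, h1, h2, h3, h4⟩ := (hinv n).i4 (b x)
        have hadj : G.Adj u v := by
          refine ⟨?_, h1.trans h2.symm, hn u v h1 h2 h4⟩
          rintro rfl
          exact h3 rfl
        have hcase : (h x = h u ∧ h v = h y) ∨ (h x = h v ∧ h u = h y) := by
          revert hh h3
          cases h x <;> cases h y <;> cases h u <;> cases h v <;> simp
        rcases hcase with ⟨e1, e2⟩ | ⟨e1, e2⟩
        · exact (((hhalfconn x u h1.symm e1).mono inf_le_left).trans hadj.reachable).trans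
            ((hhalfconn v y (h2.trans hb) e2).mono inf_le_left)
        · exact (((hhalfconn x v h2.symm e1).mono inf_le_left).trans hadj.symm.reachable).trans
            ((hhalfconn u y (h1.trans hb) e2).mono inf_le_left)
    have hcomp : ∀ v, comp G v = {w | b w = b v} := by
      intro v
      ext w
      exact ⟨fun hw => (hGb v w hw).symm, fun hw => hconn v w (Eq.symm hw)⟩
    have hcard : ∀ v, (comp G v).ncard = 4 * b v + 7 + 2 * (r (b v)).toNat := by
      intro v
      rw [hcomp]
      exact (hblock (b v)).2
    have hlev : ∀ v, InLevel (b v) (comp G v).ncard := by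
      intro v
      rw [hcard]
      unfold InLevel
      cases r (b v) <;> simp
    have hsurj : ∀ j t, ∃ v, b v = j ∧ h v = t := by
      intro j t
      have h1 := hhalf j t
      have : {v | b v = j ∧ h v = t}.Nonempty := by
        apply Set.nonempty_of_ncard_ne_zero
        omega
      exact this
    have hpath : ∀ j t, ∃ x y z, b y = j ∧ G.Adj x y ∧ G.Adj y z ∧ x ≠ z ∧ h x = t ∧ h y = t ∧
        h z = t := by
      intro j t
      obtain ⟨v, hv1, hv2⟩ := hsurj j t
      have hbig : 2 < (comp (G ⊓ SH b h) v).ncard := by
        have hsub : {w | b w = j ∧ h w = t} ⊆ comp (G ⊓ SH b h) v := by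
          rintro w ⟨hw1, hw2⟩
          exact hhalfconn v w (hv1.trans hw1.symm) (hv2.trans hw2.symm)
        have hfin : (comp (G ⊓ SH b h) v).Finite := by
          have : comp (G ⊓ SH b h) v ⊆ {w | b w = j} := by
            intro w hw
            have hw' : G.Reachable v w := Reachable.mono inf_le_left hw
            exact (hGb v w hw').symm.trans hv1
          exact (hblock j).1.subset this
        exact lt_of_lt_of_le (hhalf j t) (Set.ncard_le_ncard hsub hfin)
      obtain ⟨x, y, z, hy, hxy, hyz, hxz⟩ := exists_two_neighbours_of_card hbig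
      have hhy : h v = h y := by
        have hy' := hy
        rw [reachable_eq_reflTransGen] at hy'
        induction hy' with
        | refl => rfl
        | @tail w u hvw hwu _ =>
          -- use the half graph directly
          have hall : ∀ w, Relation.ReflTransGen (G ⊓ SH b h).Adj v w → h v = h w := by
            intro w hw
            induction hw with
            | refl => rfl
            | @tail p q _ hpq ih => exact ih.trans hpq.2.2.2
          exact hall u (hvw.tail hwu)
      have hby : b y = j := by
        have hy' : G.Reachable v y := Reachable.mono inf_le_left hy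
        exact (hGb v y hy').symm.trans hv1
      have hty : h y = t := hhy.symm.trans hv2
      exact ⟨x, y, z, hby, hxy.1, hyz.1, hxz, (hxy.2.2.2).trans hty, hty,
        (hyz.2.2.2).symm.trans hty⟩
    have hgood : ∀ v, Good G v := by
      intro v
      obtain ⟨x, y, z, h1, h2, h3, h4, h5, h6, h7⟩ := hpath (b v) true
      obtain ⟨x', y', z', h1', h2', h3', h4', h5', h6', h7'⟩ := hpath (b v) false
      refine ⟨x, y, z, x', y', z', hconn v y h1.symm, hconn v y' h1'.symm, h2, h3, h2', h3',
        h4, h4', ?_⟩
      intro w hw hw'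
      have e1 : h w = true := by
        rcases hw with rfl | rfl | rfl <;> assumption
      have e2 : h w = false := by
        rcases hw' with rfl | rfl | rfl <;> assumption
      rw [e1] at e2
      exact absurd e2 (by simp)
    have hleaves : ∀ v w, b v = b w → leaves G v = leaves G w := by
      intro v w hvw
      ext x
      constructor
      · rintro ⟨a1, a2⟩
        exact ⟨(hconn w v hvw.symm).trans a1, a2⟩
      · rintro ⟨a1, a2⟩
        exact ⟨(hconn v w hvw).trans a1, a2⟩
    refine ⟨G, ⟨?_, ?_⟩, ?_, fun n => decide (∃ v, b v = n ∧ Odd (leaves G v).ncard), 0, ?_⟩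
    · rintro x hx
      induction x with
      | _ x y =>
        rw [mem_edgeSet]
        refine ⟨?_, hgreen x y hx, ?_⟩
        · obtain ⟨n, hn, -⟩ := hx
          have := hl.1 n
          rw [hn] at this
          simpa using this
        · rintro n ⟨hn, hn'⟩
          obtain ⟨m, hm, hm'⟩ := hx
          have : m = n := hl.2 (hm.trans hn.symm)
          rw [this, hn'] at hm'
          exact absurd hm' (by simp)
    · rintro x hx
      induction x with
      | _ x y =>
        rw [mem_edgeSet] at hx
        by_cases hasked : ∃ n, e n = s(x, y)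
        · obtain ⟨n, hn⟩ := hasked
          left
          refine ⟨n, hn, ?_⟩
          by_contra hcn
          exact hx.2.2 n ⟨hn, by simpa using hcn⟩
        · right
          push Not at hasked
          exact ⟨by simpa using hx.1, hasked⟩
    · intro v
      refine ⟨?_, ?_⟩
      · rw [hcomp]; exact (hblock (b v)).1
      · rw [hcard, Nat.odd_iff]; omega
    · intro n _
      constructor
      · obtain ⟨v, hv, -⟩ := hsurj n true
        refine ⟨v, ?_⟩
        have := hlev v
        rwa [hv] at this
      · intro v hv
        have hbv : n = b v := hv.unique (hlev v)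
        subst hbv
        refine ⟨hcard v, hgood v, ?_⟩
        constructor
        · intro ho
          simpa using ⟨v, rfl, ho⟩
        · intro ho
          have ho' : ∃ w, b w = b v ∧ Odd (leaves G w).ncard := by simpa using ho
          obtain ⟨w, hw1, hw2⟩ := ho'
          rwa [hleaves w v hw1] at hw2
  · -- a completion that is not in `Odds`
    obtain ⟨x, hx, hx'⟩ := hw
    induction x with
    | _ u v =>
      have huv : u ≠ v := by simpa using hx
      set G := fromEdgeSet (greenEdges e c) with hG
      have hnr : ¬ G.Reachable u v := by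
        intro hr
        obtain ⟨n, hn⟩ := reach_limit hr
        obtain ⟨t, ht⟩ := asked_of_reachable (hinv n) (hcons n) huv hn
        obtain ⟨i, -, hi, -⟩ := mem_history.1 ht
        exact hx' i hi
      have hmem : ∀ x ∈ greenEdges e c, x ∈ G.edgeSet := by
        intro x hx
        induction x with
        | _ a d =>
          rw [mem_edgeSet, hG, fromEdgeSet_adj]
          refine ⟨hx, ?_⟩
          obtain ⟨n, hn, -⟩ := hx
          have := hl.1 n
          rw [hn] at this
          simpa using this
      have hG1 : G ∈ completions e c := by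
        refine ⟨hmem, ?_⟩
        intro x hx
        induction x with
        | _ a d =>
          rw [mem_edgeSet, hG, fromEdgeSet_adj] at hx
          exact Or.inl hx.1
      have hG2 : G ⊔ edge u v ∈ completions e c := by
        refine ⟨fun x hx => ?_, ?_⟩
        · exact edgeSet_mono le_sup_left (hmem x hx)
        · intro x hx
          induction x with
          | _ a d =>
            rw [mem_edgeSet, sup_adj, edge_adj] at hx
            rcases hx with hx | ⟨hx, -⟩
            · rw [hG, fromEdgeSet_adj] at hx
              exact Or.inl hx.1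
            · right
              have : (s(a, d) : Sym2 ℕ) = s(u, v) := Sym2.eq_iff.2 hx
              rw [this]
              exact ⟨by simpa using huv, hx'⟩
      by_cases hO : Odds G
      · exact ⟨_, hG2, not_odds_sup_edge hnr hO⟩
      · exact ⟨G, hG1, hO⟩

/-- Hider's side: every strategy of Seeker can be answered, for every `r`, by a play with first
coordinate `r`. -/
theorem hider_side (σ : List (Sym2 ℕ × Bool) → Sym2 ℕ) (r : ℕ → Bool) :
    ∃ y : ℕ → Bool, ∀ X : Set Om, cls r y ∈ X → ¬ SeekerWinning (propOf X) σ := by
  classical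
  obtain ⟨b, h, hblock, hhalf⟩ := exists_blocks r
  obtain ⟨e, c, he, hc⟩ := exists_run σ (blockStrategy b h)
  by_cases hl : LegalRun e
  · by_cases hw : (whiteEdges e).Nonempty
    · obtain ⟨⟨G, hG, hO, y, hM⟩, G', hG', hO'⟩ := block_outcome hblock hhalf hl hc hw
      refine ⟨y, fun X hX hwin => ?_⟩
      obtain ⟨-, -, h1 | h1⟩ := hwin e c he
      · exact hO' (h1 hG').1
      · exact Set.disjoint_left.1 h1 hG ⟨hO, r, y, hM, hX⟩
    · exact ⟨r, fun X _ hwin => hw (hwin e c he).2.1⟩
  · exact ⟨r, fun X _ hwin => hl (hwin e c he).1⟩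

end Pool.Agent.Lib.MP_5af839_lc
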