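import Mathlib
import Pool.Agent.Lib.MP_5af839_lc.HiderWins

set_option autoImplicit false

namespace Pool.Agent.Lib.MP_5af839_lc

open Cardinal

/-- A family of sets that are all at least as large as the index set has an injective
choice function. -/
theorem exists_injective_choice {ι Ω : Type} (A : ι → Set Ω) (h : ∀ i, #ι ≤ #(A i)) :
    ∃ f : ι → Ω, Function.Injective f ∧ ∀ i, f i ∈ A i := by
  classical
  obtain ⟨r, wo, hr⟩ := exists_ord_eq ι
  have hlt : ∀ i, #{j // r j i} < #ι := by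
    intro i
    exact card_typein_lt i hr
  have hex : ∀ (i : ι) (f : ∀ j, r j i → Ω), ∃ x ∈ A i, ∀ j (hj : r j i), f j hj ≠ x := by
    intro i f
    by_contra hcon
    push Not at hcon
    have hsub : A i ⊆ Set.range (fun j : {j // r j i} => f j.1 j.2) := by
      intro x hx
      obtain ⟨j, hj, hjx⟩ := hcon x hx
      exact ⟨⟨j, hj⟩, hjx⟩
    have h1 : #(A i) ≤ #{j // r j i} := (mk_le_mk_of_subset hsub).trans mk_range_le
    exact absurd ((h i).trans h1) (not_le.2 (hlt i))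
  choose F hF1 hF2 using hex
  have hwf : WellFounded r := wo.wf
  let f : ι → Ω := hwf.fix (C := fun _ => Ω) (fun i ih => F i ih)
  have hf : ∀ i, f i = F i (fun j _ => f j) := fun i => hwf.fix_eq _ i
  have hne : ∀ i j, r j i → f j ≠ f i := by
    intro i j hji
    rw [hf i]
    exact hF2 i (fun j _ => f j) j hji
  refine ⟨f, ?_, ?_⟩
  · intro i j hij
    rcases (wo.toTrichotomous).trichotomous i j with hh
    by_contra hne'
    by_cases h1 : r i j
    · exact hne j i h1 hij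
    · by_cases h2 : r j i
      · exact hne i j h2 hij.symm
      · exact hne' (hh h1 h2)
  · intro i
    rw [hf i]
    exact hF1 i _

/-- repeating every bit infinitely often makes the classes of different sequences different -/
def rep (x : ℕ → Bool) : ℕ → Bool := fun n => x n.unpair.1

theorem rep_inj {x x' : ℕ → Bool} (h : ∃ N, ∀ n ≥ N, rep x n = rep x' n) : x = x' := by
  obtain ⟨N, hN⟩ := h
  funext k
  have h1 := hN (Nat.pair k N) (Nat.right_le_pair k N)
  simpa [rep] using h1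

theorem continuum_le_fst (Y : (ℕ → Bool) → (ℕ → Bool)) :
    𝔠 ≤ #(Set.range (fun r => cls r (Y r))) := by
  have h1 : #(ℕ → Bool) = 𝔠 := by simp
  rw [← h1]
  refine mk_le_of_injective (f := fun x : ℕ → Bool =>
    (⟨cls (rep x) (Y (rep x)), rep x, rfl⟩ : Set.range (fun r => cls r (Y r)))) ?_
  intro x x' hxx
  have h2 : cls (rep x) (Y (rep x)) = cls (rep x') (Y (rep x')) := congrArg Subtype.val hxx
  obtain ⟨N, hN⟩ := Quotient.exact h2
  exact rep_inj ⟨N, fun n hn => (hN n hn).1⟩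

theorem continuum_le_snd (R : (ℕ → Bool) → (ℕ → Bool)) :
    𝔠 ≤ #(Set.range (fun g => cls (R g) g)) := by
  have h1 : #(ℕ → Bool) = 𝔠 := by simp
  rw [← h1]
  refine mk_le_of_injective (f := fun x : ℕ → Bool =>
    (⟨cls (R (rep x)) (rep x), rep x, rfl⟩ : Set.range (fun g => cls (R g) g))) ?_
  intro x x' hxx
  have h2 : cls (R (rep x)) (rep x) = cls (R (rep x')) (rep x') := congrArg Subtype.val hxx
  obtain ⟨N, hN⟩ := Quotient.exact h2
  exact rep_inj ⟨N, fun n hn => (hN n hn).2⟩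

/-- There are at most continuum many strategies. -/
theorem card_strategies :
    #((List (Sym2 ℕ × Bool) → Sym2 ℕ) ⊕ (List (Sym2 ℕ × Bool) → Sym2 ℕ → Bool)) ≤ 𝔠 := by
  have h1 : #(List (Sym2 ℕ × Bool) → Sym2 ℕ) ≤ 𝔠 := by
    rw [mk_arrow, lift_id, lift_id]
    calc #(Sym2 ℕ) ^ #(List (Sym2 ℕ × Bool)) ≤ ℵ₀ ^ #(List (Sym2 ℕ × Bool)) :=
          power_le_power_right mk_le_aleph0
      _ ≤ ℵ₀ ^ ℵ₀ := power_le_power_left aleph0_ne_zero mk_le_aleph0
      _ = 𝔠 := aleph0_power_aleph0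
  have h2 : #(List (Sym2 ℕ × Bool) → Sym2 ℕ → Bool) ≤ 𝔠 := by
    rw [mk_arrow, lift_id, lift_id, mk_arrow, lift_id, lift_id, ← power_mul]
    calc #Bool ^ (#(Sym2 ℕ) * #(List (Sym2 ℕ × Bool))) ≤ ℵ₀ ^ (#(Sym2 ℕ) * #(List (Sym2 ℕ × Bool))) :=
          power_le_power_right mk_le_aleph0
      _ ≤ ℵ₀ ^ (ℵ₀ * ℵ₀) := power_le_power_left aleph0_ne_zero
          (mul_le_mul' mk_le_aleph0 mk_le_aleph0)
      _ = 𝔠 := by rw [aleph0_mul_aleph0, aleph0_power_aleph0]
  rw [mk_sum, lift_id, lift_id]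
  exact (add_le_add h1 h2).trans (by rw [continuum_add_self])

/-- The main construction. -/
theorem exists_undetermined : ∃ S : Set (SimpleGraph ℕ), IsGraphProperty S ∧
    (¬ ∃ σ, SeekerWinning S σ) ∧ ¬ ∃ τ, HiderWinning S τ := by
  classical
  choose Y hY using hider_side
  have hB : ∀ (τ : List (Sym2 ℕ × Bool) → Sym2 ℕ → Bool) (g : ℕ → Bool), Beatable τ g := beatable
  unfold Beatable at hB
  choose R hR using hB
  let A : (List (Sym2 ℕ × Bool) → Sym2 ℕ) ⊕ (List (Sym2 ℕ × Bool) → Sym2 ℕ → Bool) → Set Om :=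
    fun i => Sum.elim (fun σ => Set.range (fun r => cls r (Y σ r)))
      (fun τ => Set.range (fun g => cls (R τ g) g)) i
  have hA : ∀ i, #((List (Sym2 ℕ × Bool) → Sym2 ℕ) ⊕ (List (Sym2 ℕ × Bool) → Sym2 ℕ → Bool)) ≤
      #(A i) := by
    intro i
    refine card_strategies.trans ?_
    rcases i with σ | τ
    · exact continuum_le_fst (Y σ)
    · exact continuum_le_snd (R τ)
  obtain ⟨f, hf, hfA⟩ := exists_injective_choice A hA
  let X : Set Om := Set.range (fun σ => f (Sum.inl σ))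
  refine ⟨propOf X, propOf_isGraphProperty X, ?_, ?_⟩
  · rintro ⟨σ, hσ⟩
    obtain ⟨r, hr⟩ := hfA (Sum.inl σ)
    refine hY σ r X ?_ hσ
    exact ⟨σ, hr.symm⟩
  · rintro ⟨τ, hτ⟩
    obtain ⟨g, hg⟩ := hfA (Sum.inr τ)
    obtain ⟨e, c, hl, hc, hwin⟩ := hR τ g
    apply hτ e c hl hc
    apply hwin X
    rintro ⟨σ, hσ⟩
    have h1 : f (Sum.inl σ) = f (Sum.inr τ) := hσ.trans hg
    exact absurd (hf h1) (by simp)

end Pool.Agent.Lib.MP_5af839_lc
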